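import Mathlib

/-!
# Degenerate `r`-sets and the block lemma
-/

open Finset

namespace Pool.Agent.H15T

/-- a set on which a colouring has `2h` coincidences contains `2h` points with at most `h`
colours -/
theorem coincidences {V C : Type*} [DecidableEq V] [DecidableEq C] (c : V → C) (h : ℕ) :
    ∀ Y : Finset V, (Y.image c).card + 2 * h ≤ Y.card →
      ∃ T ⊆ Y, T.card = 2 * h ∧ (T.image c).card ≤ h := by
  induction h with
  | zero => intro Y _; exact ⟨∅, by simp, by simp, by simp⟩
  | succ h ih =>
    intro Y hY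
    obtain ⟨x, hx, y, hy, hxy, hc⟩ := Finset.exists_ne_map_eq_of_card_lt_of_maps_to
      (s := Y) (t := Y.image c) (by omega) (f := c) (fun a ha => mem_image_of_mem c ha)
    have hy' : y ∈ Y.erase x := mem_erase.mpr ⟨hxy.symm, hy⟩
    have hcard : ((Y.erase x).erase y).card = Y.card - 2 := by
      rw [card_erase_of_mem hy', card_erase_of_mem hx]; omega
    have himg : (((Y.erase x).erase y).image c).card ≤ (Y.image c).card :=
      card_le_card (image_subset_image ((erase_subset _ _).trans (erase_subset _ _)))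
    obtain ⟨T, hT, hT1, hT2⟩ := ih ((Y.erase x).erase y) (by omega)
    have hyT : y ∉ T := fun hh => by
      have := hT hh
      simp at this
    have hxT : x ∉ insert y T := fun hh => by
      rcases mem_insert.mp hh with h1 | h1
      · exact hxy h1
      · have := hT h1
        simp at this
    refine ⟨insert x (insert y T), ?_, ?_, ?_⟩
    · intro a ha
      rcases mem_insert.mp ha with rfl | ha
      · exact hx
      · rcases mem_insert.mp ha with rfl | ha
        · exact hy
        · exact (erase_subset _ _) ((erase_subset _ _) (hT ha))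
    · rw [card_insert_of_notMem hxT, card_insert_of_notMem hyT, hT1]; ring
    · rw [image_insert, image_insert, hc]
      have : (insert (c y) (insert (c y) (image c T))) = insert (c y) (image c T) := by simp
      rw [this]
      exact (card_insert_le _ _).trans (by omega)

/-- the same with `r` points, at most `r - ⌊r/2⌋` colours -/
theorem coincidences' {V C : Type*} [DecidableEq V] [DecidableEq C] (c : V → C) (r : ℕ)
    (Y : Finset V) (hY : (Y.image c).card + r ≤ Y.card) :
    ∃ X ⊆ Y, X.card = r ∧ (X.image c).card ≤ r - r / 2 := by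
  obtain ⟨T, hT, hT1, hT2⟩ := coincidences c (r / 2) Y (by omega)
  obtain ⟨X, hTX, hXY, hX⟩ := Finset.exists_subsuperset_card_eq hT (n := r) (by omega) (by omega)
  refine ⟨X, hXY, hX, ?_⟩
  have : X.image c ⊆ T.image c ∪ (X \ T).image c := by
    rw [← image_union, union_sdiff_of_subset hTX]
  refine (card_le_card this).trans ((card_union_le _ _).trans ?_)
  have h1 : ((X \ T).image c).card ≤ (X \ T).card := card_image_le
  rw [card_sdiff_of_subset hTX] at h1
  omega

variable {m : ℕ} {N : Fin m → ℕ}

/-- The condition that the `r`-set `X` is an edge for the colouring `c`. -/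
def IsEdge {V : Type*} [DecidableEq V] (q : ℕ)
    (A : (j : Fin m) → Finset (Finset (Fin (N j)))) (c : V → (Σ j : Fin m, Fin (N j)))
    (X : Finset V) : Prop :=
  ∃ j : Fin m, (∃ Q : Finset (Fin (N j)), Q.card = q ∧
      ∀ v ∈ X, c v ∈ Q.map (Function.Embedding.sigmaMk j)) ∨
    (∃ Z ∈ A j, X.image c = Z.map (Function.Embedding.sigmaMk j))

theorem block_lemma {V : Type*} [DecidableEq V] (r : ℕ) (a : Fin m → ℕ)
    (ha : ∀ j, r ≤ a j) (hN : ∀ j, a j ≤ N j) (hr : 2 ≤ r)
    (A : (j : Fin m) → Finset (Finset (Fin (N j))))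
    (hA1 : ∀ j, ∀ Z ∈ A j, Z.card = r)
    (hA : ∀ j, ∀ S : Finset (Fin (N j)), S.card = a j + 2 - r → ∃ Z ∈ A j, Z ⊆ S)
    (c : V → (Σ j : Fin m, Fin (N j))) (Y : Finset V) (hY : ∑ j, a j + 1 ≤ Y.card) :
    ∃ X ⊆ Y, X.card = r ∧ IsEdge (r - r / 2) A c X := by
  have hex : ∃ j, a j + 1 ≤ (Y.filter (fun v => (c v).1 = j)).card := by
    by_contra hcon
    push Not at hcon
    have h1 : Y.card = ∑ j, (Y.filter (fun v => (c v).1 = j)).card :=
      Finset.card_eq_sum_card_fiberwise (fun v _ => mem_univ _)
    have h2 : ∑ j, (Y.filter (fun v => (c v).1 = j)).card ≤ ∑ j, a j :=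
      Finset.sum_le_sum (fun j _ => by have := hcon j; omega)
    omega
  obtain ⟨j, hj⟩ := hex
  set Yj := Y.filter (fun v => (c v).1 = j) with hYj
  have hYjY : Yj ⊆ Y := filter_subset _ _
  have himg : ∀ ω ∈ Yj.image c, ω.1 = j := by
    intro ω hω
    obtain ⟨v, hv, rfl⟩ := mem_image.mp hω
    exact (mem_filter.mp hv).2
  -- sets of colours in block `j` are images
  have hmap : ∀ I : Finset (Σ j : Fin m, Fin (N j)), (∀ ω ∈ I, ω.1 = j) →
      ∃ S : Finset (Fin (N j)), I = S.map (Function.Embedding.sigmaMk j) := by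
    intro I hI
    refine ⟨univ.filter (fun x => (⟨j, x⟩ : Σ j : Fin m, Fin (N j)) ∈ I), ?_⟩
    ext ω
    simp only [mem_map, mem_filter, mem_univ, true_and, Function.Embedding.sigmaMk_apply]
    constructor
    · intro hω
      have := hI ω hω
      obtain ⟨j', x⟩ := ω
      simp only at this
      subst this
      exact ⟨x, hω, rfl⟩
    · rintro ⟨x, hx, rfl⟩
      exact hx
  by_cases hcase : a j + 2 - r ≤ (Yj.image c).card
  · -- many colours
    obtain ⟨I, hI1, hI2⟩ := Finset.exists_subset_card_eq hcase
    obtain ⟨S, hS⟩ := hmap I (fun ω hω => himg ω (hI1 hω))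
    have hScard : S.card = a j + 2 - r := by rw [← hI2, hS, card_map]
    obtain ⟨Z, hZ, hZS⟩ := hA j S hScard
    have hZI : Z.map (Function.Embedding.sigmaMk j) ⊆ Yj.image c := by
      refine Finset.Subset.trans ?_ hI1
      rw [hS]
      exact Finset.map_subset_map.mpr hZS
    obtain ⟨X, hX1, hX2, hX3⟩ := Finset.exists_subset_injOn_image_eq_of_surjOn
        (f := c) (Yj : Set V) (Z.map (Function.Embedding.sigmaMk j)) (by
          intro ω hω
          have := hZI hω
          obtain ⟨v, hv, rfl⟩ := mem_image.mp this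
          exact ⟨v, hv, rfl⟩)
    have hXY : X ⊆ Yj := by exact_mod_cast hX1
    have hXZ : X.image c = Z.map (Function.Embedding.sigmaMk j) := hX3
    have hc1 : (X.image c).card = X.card := Finset.card_image_of_injOn hX2
    refine ⟨X, hXY.trans hYjY, ?_, j, Or.inr ⟨Z, hZ, hXZ⟩⟩
    rw [← hc1, hXZ, card_map, hA1 j Z hZ]
  · -- few colours
    push Not at hcase
    obtain ⟨X, hXY, hX1, hX2⟩ := coincidences' c r Yj (by have := ha j; omega)
    refine ⟨X, hXY.trans hYjY, hX1, j, Or.inl ?_⟩
    obtain ⟨S, hS⟩ := hmap (X.image c) (fun ω hω => himg ω (image_subset_image hXY hω))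
    have hScard : S.card ≤ r - r / 2 := by
      have : (X.image c).card = S.card := by rw [hS, card_map]
      omega
    obtain ⟨Q, hSQ, -, hQ⟩ := Finset.exists_subsuperset_card_eq (subset_univ S)
      (n := r - r / 2) hScard (by
        rw [card_univ, Fintype.card_fin]
        have := ha j
        have := hN j
        omega)
    refine ⟨Q, hQ, fun v hv => ?_⟩
    have : c v ∈ X.image c := mem_image_of_mem c hv
    rw [hS] at this
    exact (Finset.map_subset_map.mpr hSQ) this

end Pool.Agent.H15T
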