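import Mathlib

set_option autoImplicit false

namespace Pool.Agent.H15T.Cong

open Finset

/-- the indices `k` in an interval for which `q` divides `a k + c` lie in one residue class -/
lemma cnt (q a : ℕ) (hq : 0 < q) (hqa : Nat.Coprime q a) (c : ℤ) (k0 K : ℕ) :
    ((Ico k0 (k0 + K)).filter (fun k : ℕ => (q : ℤ) ∣ (a : ℤ) * k + c)).card ≤ K / q + 1 := by
  have key : ∀ x y : ℕ, x ≤ y → k0 ≤ x → (q : ℤ) ∣ (a : ℤ) * x + c → (q : ℤ) ∣ (a : ℤ) * y + c →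
      (x - k0) / q = (y - k0) / q → x = y := by
    intro x y hle hk hx hy hxy
    have hd : q ∣ y - x := by
      have h1 : (q : ℤ) ∣ (a : ℤ) * ((y - x : ℕ) : ℤ) := by
        have h2 : (a : ℤ) * ((y - x : ℕ) : ℤ) = ((a : ℤ) * y + c) - ((a : ℤ) * x + c) := by
          rw [Nat.cast_sub hle]; ring
        rw [h2]; exact dvd_sub hy hx
      have h3 : q ∣ a * (y - x) := by exact_mod_cast h1
      exact hqa.dvd_of_dvd_mul_left h3
    obtain ⟨t, ht⟩ := hd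
    have hb' : y - k0 = (x - k0) + q * t := by omega
    rw [hb', Nat.add_mul_div_left _ _ hq] at hxy
    have : t = 0 := by omega
    rw [this, mul_zero] at ht
    omega
  have hinj : Set.InjOn (fun k => (k - k0) / q)
      ((Ico k0 (k0 + K)).filter (fun k : ℕ => (q : ℤ) ∣ (a : ℤ) * k + c) : Finset ℕ) := by
    intro x hx y hy hxy
    rw [mem_coe, mem_filter, mem_Ico] at hx hy
    simp only at hxy
    rcases le_total x y with h | h
    · exact key x y h hx.1.1 hx.2 hy.2 hxy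
    · exact (key y x h hy.1.1 hy.2 hx.2 hxy.symm).symm
  calc ((Ico k0 (k0 + K)).filter (fun k : ℕ => (q : ℤ) ∣ (a : ℤ) * k + c)).card
      = (((Ico k0 (k0 + K)).filter (fun k : ℕ => (q : ℤ) ∣ (a : ℤ) * k + c)).image
          (fun k => (k - k0) / q)).card := (card_image_of_injOn hinj).symm
    _ ≤ (range (K / q + 1)).card := by
        apply card_le_card
        intro x hx
        simp only [mem_image, mem_filter, mem_Ico] at hx
        obtain ⟨k, ⟨⟨h1, h2⟩, _⟩, rfl⟩ := hx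
        rw [mem_range, Nat.lt_succ_iff]
        exact Nat.div_le_div_right (by omega)
    _ = K / q + 1 := card_range _

lemma cnt_real (q a : ℕ) (hq : 0 < q) (hqa : Nat.Coprime q a) (c : ℤ) (k0 K : ℕ) :
    (((Ico k0 (k0 + K)).filter (fun k : ℕ => (q : ℤ) ∣ (a : ℤ) * k + c)).card : ℝ) ≤
      K * (1 / (q : ℝ)) + 1 := by
  have h1 : (((Ico k0 (k0 + K)).filter (fun k : ℕ => (q : ℤ) ∣ (a : ℤ) * k + c)).card : ℝ) ≤
      ((K / q + 1 : ℕ) : ℝ) := by exact_mod_cast cnt q a hq hqa c k0 K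
  have h2 : ((K / q : ℕ) : ℝ) ≤ (K : ℝ) / q := Nat.cast_div_le
  push_cast at h1
  have e : (K : ℝ) * (1 / (q : ℝ)) = K / q := by ring
  rw [e]; linarith

lemma tele (M : ℕ) : ∑ m ∈ Icc 1 M, (1 : ℝ) / ((2 * m + 1 : ℕ) : ℝ) ^ 2 ≤
    1 / 4 * (1 - 1 / ((M : ℝ) + 1)) := by
  induction M with
  | zero => simp
  | succ M ih =>
    rw [Finset.sum_Icc_succ_top (by omega)]
    have hM : (0 : ℝ) ≤ M := Nat.cast_nonneg _
    have h : (1 : ℝ) / ((2 * (M + 1) + 1 : ℕ) : ℝ) ^ 2 ≤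
        1 / 4 * (1 / ((M : ℝ) + 1) - 1 / ((M : ℝ) + 1 + 1)) := by
      have e : 1 / 4 * (1 / ((M : ℝ) + 1) - 1 / ((M : ℝ) + 1 + 1)) =
          1 / (4 * (((M : ℝ) + 1) * ((M : ℝ) + 1 + 1))) := by
        field_simp; ring
      rw [e]
      apply one_div_le_one_div_of_le (by positivity)
      push_cast
      nlinarith
    push_cast at h ih ⊢
    linarith

lemma tele' (M : ℕ) : ∑ m ∈ Icc 1 M, (1 : ℝ) / ((2 * m + 1 : ℕ) : ℝ) ^ 2 ≤ 1 / 4 := by
  have := tele M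
  have hM0 : (0 : ℝ) ≤ 1 / ((M : ℝ) + 1) := by positivity
  linarith

/-- the weight of the divisors `≥ 11` -/
noncomputable def wt (N r : ℕ) : ℝ := ∑ m ∈ (Icc 11 N).filter (fun m => m ∣ r), 1 / (m : ℝ)

/-- the sieve -/
lemma sieve (r t K k0 N : ℕ) (c h : ℤ) (hr : 1 ≤ r) (ht : t ≤ 2 * r) (hK : 70 * r < K)
    (hw : wt N r ≤ 3 / 20) (hcop : ∀ m, m ∣ r → m % 2 = 1 ∨ Nat.Coprime m 8) :
    ∃ k, k0 ≤ k ∧ k < k0 + K ∧ (∀ m ∈ Icc 1 t,
      ¬ (((2 * m + 1) ^ 2 : ℕ) : ℤ) ∣ 8 * (k : ℤ) + c ∧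
      ¬ (((2 * m + 1) ^ 2 : ℕ) : ℤ) ∣ 8 * (k : ℤ) + (c + h) ∧
      ¬ (((2 * m + 1) ^ 2 : ℕ) : ℤ) ∣ 8 * (k : ℤ) + (c - h)) ∧
      ∀ m ∈ (Icc 11 N).filter (fun m => m ∣ r), ¬ ((m : ℕ) : ℤ) ∣ 8 * (k : ℤ) + c := by
  classical
  by_contra hcon
  push Not at hcon
  have hodd8 : ∀ m : ℕ, m % 2 = 1 → Nat.Coprime m 8 := by
    intro m hm
    have h2 : Nat.Coprime m 2 := Nat.Coprime.symm ((Nat.coprime_two_left).mpr (Nat.odd_iff.mpr hm))
    have h8 : (8 : ℕ) = 2 ^ 3 := by norm_num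
    rw [h8]; exact h2.pow_right 3
  let A : ℕ → ℤ → Finset ℕ := fun q d =>
    (Ico k0 (k0 + K)).filter (fun k : ℕ => (q : ℤ) ∣ ((8 : ℕ) : ℤ) * k + d)
  have hcov : Ico k0 (k0 + K) ⊆ ((Icc 1 t).biUnion (fun m =>
      (A ((2 * m + 1) ^ 2) c ∪ A ((2 * m + 1) ^ 2) (c + h)) ∪ A ((2 * m + 1) ^ 2) (c - h))) ∪
      ((Icc 11 N).filter (fun m => m ∣ r)).biUnion (fun m => A m c) := by
    intro k hk
    have hk' := mem_Ico.mp hk
    rw [mem_union]
    by_cases hgood : ∀ m ∈ Icc 1 t,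
      ¬ (((2 * m + 1) ^ 2 : ℕ) : ℤ) ∣ 8 * (k : ℤ) + c ∧
      ¬ (((2 * m + 1) ^ 2 : ℕ) : ℤ) ∣ 8 * (k : ℤ) + (c + h) ∧
      ¬ (((2 * m + 1) ^ 2 : ℕ) : ℤ) ∣ 8 * (k : ℤ) + (c - h)
    · right
      obtain ⟨m, hm, hd⟩ := hcon k hk'.1 hk'.2 (fun m hm => hgood m hm)
      rw [mem_biUnion]
      refine ⟨m, hm, ?_⟩
      simp only [A, mem_filter]
      exact ⟨hk, by exact_mod_cast hd⟩
    · left
      push Not at hgood
      obtain ⟨m, hm, hd⟩ := hgood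
      rw [mem_biUnion]
      refine ⟨m, hm, ?_⟩
      simp only [A, mem_union, mem_filter]
      by_cases h1 : (((2 * m + 1) ^ 2 : ℕ) : ℤ) ∣ 8 * (k : ℤ) + c
      · left; left
        exact ⟨hk, by exact_mod_cast h1⟩
      · by_cases h2 : (((2 * m + 1) ^ 2 : ℕ) : ℤ) ∣ 8 * (k : ℤ) + (c + h)
        · left; right
          exact ⟨hk, by exact_mod_cast h2⟩
        · right
          have h3 := hd h1 h2
          exact ⟨hk, by exact_mod_cast h3⟩
  have hA : ∀ q : ℕ, 0 < q → Nat.Coprime q 8 → ∀ d : ℤ, ((A q d).card : ℝ) ≤ K * (1 / (q : ℝ)) + 1 :=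
    fun q hq hq8 d => cnt_real q 8 hq hq8 d k0 K
  have h1 : (K : ℝ) ≤ ∑ m ∈ Icc 1 t, (3 * (K * (1 / ((2 * m + 1 : ℕ) : ℝ) ^ 2) + 1)) +
      ∑ m ∈ (Icc 11 N).filter (fun m => m ∣ r), (K * (1 / (m : ℝ)) + 1) := by
    have e1 := card_le_card hcov
    rw [Nat.card_Ico, Nat.add_sub_cancel_left] at e1
    have e2 := e1.trans (card_union_le _ _)
    have e3 : (K : ℝ) ≤ (((Icc 1 t).biUnion (fun m =>
      (A ((2 * m + 1) ^ 2) c ∪ A ((2 * m + 1) ^ 2) (c + h)) ∪ A ((2 * m + 1) ^ 2) (c - h))).card : ℝ) +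
      ((((Icc 11 N).filter (fun m => m ∣ r)).biUnion (fun m => A m c)).card : ℝ) := by
      exact_mod_cast e2
    refine e3.trans (add_le_add ?_ ?_)
    · have e4 : (((Icc 1 t).biUnion (fun m =>
        (A ((2 * m + 1) ^ 2) c ∪ A ((2 * m + 1) ^ 2) (c + h)) ∪ A ((2 * m + 1) ^ 2) (c - h))).card : ℝ) ≤
        ∑ m ∈ Icc 1 t, ((((A ((2 * m + 1) ^ 2) c ∪ A ((2 * m + 1) ^ 2) (c + h)) ∪
          A ((2 * m + 1) ^ 2) (c - h)).card : ℕ) : ℝ) := by exact_mod_cast card_biUnion_le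
      refine e4.trans (Finset.sum_le_sum ?_)
      intro m _
      have hq0 : 0 < (2 * m + 1) ^ 2 := by positivity
      have hq8 : Nat.Coprime ((2 * m + 1) ^ 2) 8 := (hodd8 (2 * m + 1) (by omega)).pow_left 2
      have u1 := hA _ hq0 hq8 c
      have u2 := hA _ hq0 hq8 (c + h)
      have u3 := hA _ hq0 hq8 (c - h)
      have u4 : ((((A ((2 * m + 1) ^ 2) c ∪ A ((2 * m + 1) ^ 2) (c + h)) ∪
          A ((2 * m + 1) ^ 2) (c - h)).card : ℕ) : ℝ) ≤ (A ((2 * m + 1) ^ 2) c).card +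
          (A ((2 * m + 1) ^ 2) (c + h)).card + (A ((2 * m + 1) ^ 2) (c - h)).card := by
        have := (card_union_le (A ((2 * m + 1) ^ 2) c ∪ A ((2 * m + 1) ^ 2) (c + h))
          (A ((2 * m + 1) ^ 2) (c - h))).trans (Nat.add_le_add_right (card_union_le _ _) _)
        exact_mod_cast this
      push_cast at u1 u2 u3 ⊢
      linarith
    · have e4 : ((((Icc 11 N).filter (fun m => m ∣ r)).biUnion (fun m => A m c)).card : ℝ) ≤
        ∑ m ∈ (Icc 11 N).filter (fun m => m ∣ r), ((A m c).card : ℝ) := by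
        exact_mod_cast card_biUnion_le
      refine e4.trans (Finset.sum_le_sum ?_)
      intro m hm
      rw [mem_filter, mem_Icc] at hm
      refine hA m (by omega) ?_ c
      rcases hcop m hm.2 with h | h
      · exact hodd8 m h
      · exact h
  have h2 : ∑ m ∈ Icc 1 t, (3 * ((K : ℝ) * (1 / ((2 * m + 1 : ℕ) : ℝ) ^ 2) + 1)) ≤
      3 * ((K : ℝ) * (1 / 4)) + 3 * (t : ℝ) := by
    rw [← Finset.mul_sum, Finset.sum_add_distrib, ← Finset.mul_sum]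
    have := mul_le_mul_of_nonneg_left (tele' t) (Nat.cast_nonneg (α := ℝ) K)
    simp only [sum_const, Nat.card_Icc, Nat.add_sub_cancel, nsmul_eq_mul, mul_one]
    linarith
  have h3 : ∑ m ∈ (Icc 11 N).filter (fun m => m ∣ r), ((K : ℝ) * (1 / (m : ℝ)) + 1) ≤
      (K : ℝ) * (3 / 20) + (r : ℝ) := by
    rw [Finset.sum_add_distrib, ← Finset.mul_sum]
    have u1 : (K : ℝ) * ∑ m ∈ (Icc 11 N).filter (fun m => m ∣ r), 1 / (m : ℝ) ≤ K * (3 / 20) :=
      mul_le_mul_of_nonneg_left hw (Nat.cast_nonneg _)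
    have u2 : ((Icc 11 N).filter (fun m => m ∣ r)).card ≤ r := by
      have : (Icc 11 N).filter (fun m => m ∣ r) ⊆ Icc 1 r := by
        intro m hm
        rw [mem_filter, mem_Icc] at hm
        rw [mem_Icc]
        exact ⟨by omega, Nat.le_of_dvd hr hm.2⟩
      have := card_le_card this
      simpa using this
    have u3 : (((Icc 11 N).filter (fun m => m ∣ r)).card : ℝ) ≤ r := by exact_mod_cast u2
    simp only [sum_const, nsmul_eq_mul, mul_one]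
    linarith
  have h4 : (t : ℝ) ≤ 2 * r := by exact_mod_cast ht
  have h5 : (70 * r : ℝ) < K := by exact_mod_cast hK
  linarith

end Pool.Agent.H15T.Cong
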