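import Pool.Agent.H15T.CongA

set_option autoImplicit false

namespace Pool.Agent.H15T.Cong

open Finset

lemma tele2 (N : ℕ) : ∑ m ∈ Icc 11 (11 + N), (1 : ℝ) / (m : ℝ) * (1 / (m : ℝ)) ≤
    1 / 10 - 1 / ((11 : ℝ) + N) := by
  induction N with
  | zero => norm_num
  | succ N ih =>
    rw [← add_assoc, Finset.sum_Icc_succ_top (by omega)]
    have hN : (0 : ℝ) ≤ N := Nat.cast_nonneg _
    have h : (1 : ℝ) / ((11 + N + 1 : ℕ) : ℝ) * (1 / ((11 + N + 1 : ℕ) : ℝ)) ≤
        1 / ((11 : ℝ) + N) - 1 / ((11 : ℝ) + N + 1) := by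
      have e : 1 / ((11 : ℝ) + N) - 1 / ((11 : ℝ) + N + 1) = 1 / (((11 : ℝ) + N) * ((11 : ℝ) + N + 1)) := by
        field_simp; ring
      rw [e, one_div_mul_one_div]
      apply one_div_le_one_div_of_le (by positivity)
      push_cast
      nlinarith
    push_cast at h ih ⊢
    have e2 : (11 : ℝ) + (N + 1) = 11 + N + 1 := by ring
    rw [e2]
    linarith

lemma tele2' (N : ℕ) : ∑ m ∈ Icc 11 N, (1 : ℝ) / (m : ℝ) * (1 / (m : ℝ)) ≤ 1 / 10 := by
  have h1 : ∑ m ∈ Icc 11 N, (1 : ℝ) / (m : ℝ) * (1 / (m : ℝ)) ≤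
      ∑ m ∈ Icc 11 (11 + N), (1 : ℝ) / (m : ℝ) * (1 / (m : ℝ)) := by
    apply Finset.sum_le_sum_of_subset_of_nonneg
    · intro m hm
      rw [mem_Icc] at hm ⊢
      omega
    · intro m _ _
      positivity
  have h2 := tele2 N
  have h3 : (0 : ℝ) ≤ 1 / ((11 : ℝ) + N) := by positivity
  linarith

lemma harm (N : ℕ) : ∑ m ∈ Icc 11 N, (1 : ℝ) / (m : ℝ) ≤ 1 + Real.log N := by
  have h := harmonic_le_one_add_log N
  have e : ((harmonic N : ℚ) : ℝ) = ∑ m ∈ Icc 1 N, (1 : ℝ) / (m : ℝ) := by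
    rw [harmonic_eq_sum_Icc]
    push_cast
    apply Finset.sum_congr rfl
    intro m _
    rw [one_div]
  rw [e] at h
  refine le_trans ?_ h
  apply Finset.sum_le_sum_of_subset_of_nonneg
  · intro m hm
    rw [mem_Icc] at hm ⊢
    omega
  · intro m _ _
    positivity

/-- a good `r` in a short interval -/
lemma choose_r (i0 D : ℕ) (hD : 1 ≤ D) (N : ℕ) (hN : 20 * (1 + Real.log N) ≤ D) :
    ∃ j, j < D ∧ wt N (1 + 420 * (i0 + j)) ≤ 3 / 20 := by
  classical
  by_contra hcon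
  push Not at hcon
  have h1 : (D : ℝ) * (3 / 20) < ∑ j ∈ range D, wt N (1 + 420 * (i0 + j)) := by
    have : ∑ j ∈ range D, (3 / 20 : ℝ) < ∑ j ∈ range D, wt N (1 + 420 * (i0 + j)) := by
      apply Finset.sum_lt_sum_of_nonempty
      · exact ⟨0, by simp; omega⟩
      · intro j hj
        exact hcon j (mem_range.mp hj)
    simpa using this
  have h2 : ∑ j ∈ range D, wt N (1 + 420 * (i0 + j)) ≤
      ∑ m ∈ Icc 11 N, (1 / (m : ℝ)) * (D * (1 / (m : ℝ)) + 1) := by
    unfold wt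
    have e1 : ∀ j ∈ range D, ∑ m ∈ (Icc 11 N).filter (fun m => m ∣ (1 + 420 * (i0 + j))), 1 / (m : ℝ) =
        ∑ m ∈ Icc 11 N, if m ∣ (1 + 420 * (i0 + j)) then 1 / (m : ℝ) else 0 := by
      intro j _
      rw [Finset.sum_filter]
    rw [Finset.sum_congr rfl e1, Finset.sum_comm]
    apply Finset.sum_le_sum
    intro m hm
    rw [mem_Icc] at hm
    rw [← Finset.sum_filter, sum_const, nsmul_eq_mul, mul_comm]
    have hm0 : (0 : ℝ) ≤ 1 / (m : ℝ) := by positivity
    apply mul_le_mul_of_nonneg_left _ hm0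
    by_cases hc : Nat.Coprime m 420
    · have h3 := cnt_real m 420 (by omega) hc 1 i0 D
      refine le_trans ?_ h3
      have h4 : ((range D).filter (fun j => m ∣ (1 + 420 * (i0 + j)))).card ≤
          ((Ico i0 (i0 + D)).filter (fun k : ℕ => ((m : ℕ) : ℤ) ∣ ((420 : ℕ) : ℤ) * k + 1)).card := by
        apply card_le_card_of_injOn (fun j => i0 + j)
        · intro j hj
          rw [mem_coe, mem_filter, mem_range] at hj
          simp only [mem_coe, mem_filter, mem_Ico]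
          refine ⟨⟨by omega, by omega⟩, ?_⟩
          have h5 := hj.2
          have h6 : ((m : ℕ) : ℤ) ∣ ((1 + 420 * (i0 + j) : ℕ) : ℤ) := by exact_mod_cast h5
          have h7 : ((420 : ℕ) : ℤ) * ((i0 + j : ℕ) : ℤ) + 1 = ((1 + 420 * (i0 + j) : ℕ) : ℤ) := by
            push_cast; ring
          rw [h7]; exact h6
        · intro a _ b _ hab
          simp only at hab
          omega
      exact_mod_cast h4
    · have h5 : (range D).filter (fun j => m ∣ (1 + 420 * (i0 + j))) = ∅ := by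
        rw [Finset.filter_eq_empty_iff]
        intro j _ hd
        apply hc
        have h6 : Nat.gcd m 420 ∣ 1 := by
          have h7 : Nat.gcd m 420 ∣ 1 + 420 * (i0 + j) := (Nat.gcd_dvd_left m 420).trans hd
          have h8 : Nat.gcd m 420 ∣ 420 * (i0 + j) := (Nat.gcd_dvd_right m 420).mul_right _
          exact (Nat.dvd_add_left h8).mp h7
        exact Nat.dvd_one.mp h6
      rw [h5, card_empty, Nat.cast_zero]
      positivity
  have h3 : ∑ m ∈ Icc 11 N, (1 / (m : ℝ)) * ((D : ℝ) * (1 / (m : ℝ)) + 1) =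
      D * ∑ m ∈ Icc 11 N, (1 : ℝ) / (m : ℝ) * (1 / (m : ℝ)) + ∑ m ∈ Icc 11 N, (1 : ℝ) / (m : ℝ) := by
    rw [Finset.mul_sum, ← Finset.sum_add_distrib]
    apply Finset.sum_congr rfl
    intro m _
    ring
  have h4 := mul_le_mul_of_nonneg_left (tele2' N) (Nat.cast_nonneg (α := ℝ) D)
  have h5 := harm N
  rw [h3] at h2
  linarith

end Pool.Agent.H15T.Cong
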