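import Pool.Agent.H15T.CongB

set_option autoImplicit false
set_option maxHeartbeats 4000000

namespace Pool.Agent.H15T.Cong

open Finset

/-- squarefreeness -/
lemma sqf (v : ℕ) (h4 : v % 4 ≠ 0) (h : ∀ n, Odd n → 3 ≤ n → ¬ n ^ 2 ∣ v) : Squarefree v := by
  rw [Nat.squarefree_iff_prime_squarefree]
  intro p hp hpp
  rcases hp.eq_two_or_odd' with rfl | hodd
  · omega
  · have : 3 ≤ p := by
      have := hp.two_le
      rcases hodd with ⟨t, rfl⟩
      omega
    exact h p hodd this (by rw [pow_two]; exact hpp)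

/-- `v u (u + 2 v)` with `u + v = t ^ 2` is the area of a rational right triangle -/
lemma congr_area (t v u : ℕ) (ht : 0 < t) (hv : 0 < v) (hu : 0 < u) (h : u + v = t ^ 2) :
    ∃ a b c : ℚ, 0 < a ∧ 0 < b ∧ 0 < c ∧ a ^ 2 + b ^ 2 = c ^ 2 ∧
      ((v * u * (u + 2 * v) : ℕ) : ℚ) = a * b / 2 := by
  have ht' : (0 : ℚ) < t := by exact_mod_cast ht
  have hv' : (0 : ℚ) < v := by exact_mod_cast hv
  have hu' : (0 : ℚ) < u := by exact_mod_cast hu
  have hh : (u : ℚ) + v = t ^ 2 := by exact_mod_cast h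
  have hu2 : (u : ℚ) = t ^ 2 - v := by linarith
  refine ⟨u * (u + 2 * v) / t, 2 * t * v, (((t : ℚ) ^ 2) ^ 2 + v ^ 2) / t, by positivity, by positivity,
    by positivity, ?_, ?_⟩
  · rw [hu2]
    field_simp
    ring
  · push_cast
    field_simp

/-- squarefreeness of the product -/
lemma prod_sqf (t v u : ℕ) (h : u + v = t ^ 2) (hc : Nat.Coprime v t) (hu : Odd u)
    (h1 : Squarefree v) (h2 : Squarefree u) (h3 : Squarefree (u + 2 * v)) :
    Squarefree (v * u * (u + 2 * v)) := by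
  have c0 : Nat.Coprime v (t ^ 2) := hc.pow_right 2
  have c1 : Nat.Coprime v u := by
    rw [← h] at c0
    exact (Nat.coprime_add_self_right).mp c0
  have c2 : Nat.Coprime v (u + 2 * v) := by
    have : Nat.Coprime v (u + v * 2) := (Nat.coprime_add_mul_left_right v u 2).mpr c1
    rwa [mul_comm v 2] at this
  have c3 : Nat.Coprime u (u + 2 * v) := by
    rw [Nat.coprime_self_add_right]
    exact Nat.Coprime.mul_right ((Nat.coprime_two_left.mpr hu).symm) c1.symm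
  rw [Nat.squarefree_mul (Nat.Coprime.mul_left c2 c3), Nat.squarefree_mul c1]
  exact ⟨⟨h1, h2⟩, h3⟩

/-- the arithmetic part: a good `v` in a window -/
lemma good_v (r e c0 k0 N : ℕ) (j : ℕ) (hr : r % 420 = 1) (hrN : r ≤ N)
    (hw : wt N r ≤ 3 / 20)
    (hcase : (e = 2 ∧ (j = 1 ∨ j = 3 ∨ j = 5 ∨ j = 7) ∧ c0 = 8 - j) ∨
      (e = 1 ∧ (j = 2 ∨ j = 6) ∧ c0 = j))
    (hsz : 8 * (k0 + 71 * r) + 8 ≤ (e * r) ^ 2) :
    ∃ k, k0 ≤ k ∧ k < k0 + 71 * r ∧ ∃ n : ℕ,
      (n : ℤ) = (8 * k + c0) * (((e * r : ℕ) : ℤ) ^ 4 - (8 * k + c0) ^ 2) ∧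
      Squarefree n ∧ n % 8 = j ∧
      ∃ a b c : ℚ, 0 < a ∧ 0 < b ∧ 0 < c ∧ a ^ 2 + b ^ 2 = c ^ 2 ∧ (n : ℚ) = a * b / 2 := by
  have hr1 : 1 ≤ r := by omega
  have he : e = 1 ∨ e = 2 := by rcases hcase with h | h <;> omega
  obtain ⟨k, hk1, hk2, hsq, hcp⟩ := sieve r (e * r) (71 * r) k0 N (c0 : ℤ) (((e * r : ℕ) : ℤ) ^ 2)
    hr1 (by rcases he with rfl | rfl <;> omega) (by omega) hw (by
      intro m hm
      left
      by_contra hcon
      have h2 : 2 ∣ m := by omega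
      have h3 : 2 ∣ r := h2.trans hm
      omega)
  refine ⟨k, hk1, hk2, ?_⟩
  obtain ⟨t, ht⟩ : ∃ t : ℕ, t = e * r := ⟨_, rfl⟩
  rw [← ht] at hsq hsz ⊢
  obtain ⟨v, hv⟩ : ∃ v : ℕ, v = 8 * k + c0 := ⟨_, rfl⟩
  have hc08 : c0 ≤ 7 ∧ 1 ≤ c0 := by rcases hcase with h | h <;> omega
  have hvt : v < t ^ 2 := by omega
  obtain ⟨u, hu⟩ : ∃ u : ℕ, u + v = t ^ 2 := ⟨t ^ 2 - v, by omega⟩
  have ht1 : 1 ≤ t := by
    rw [ht]
    rcases he with rfl | rfl <;> omega
  have hvZ : (v : ℤ) = 8 * (k : ℤ) + (c0 : ℤ) := by rw [hv]; push_cast; ring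
  have huZ : (u : ℤ) = (t : ℤ) ^ 2 - v := by
    have : ((u + v : ℕ) : ℤ) = ((t ^ 2 : ℕ) : ℤ) := by rw [hu]
    push_cast at this; linarith
  -- no odd squares
  have hv0 : 0 < v := by omega
  have hu0 : 0 < u := by omega
  have hbig : ∀ m : ℕ, t < m → ∀ w : ℕ, 0 < w → w ≤ 2 * t ^ 2 → ¬ (2 * m + 1) ^ 2 ∣ w := by
    intro m hm w hw0 hw2 hd
    have h1 := Nat.le_of_dvd hw0 hd
    nlinarith
  have sv : ∀ n, Odd n → 3 ≤ n → ¬ n ^ 2 ∣ v := by
    intro n hn hn3 hd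
    obtain ⟨m, rfl⟩ := hn
    by_cases hm : m ≤ t
    · apply (hsq m (mem_Icc.mpr ⟨by omega, hm⟩)).1
      rw [← hvZ]; exact_mod_cast hd
    · exact hbig m (by omega) v hv0 (by omega) hd
  have su : ∀ n, Odd n → 3 ≤ n → ¬ n ^ 2 ∣ u := by
    intro n hn hn3 hd
    obtain ⟨m, rfl⟩ := hn
    by_cases hm : m ≤ t
    · apply (hsq m (mem_Icc.mpr ⟨by omega, hm⟩)).2.2
      have e1 : 8 * (k : ℤ) + ((c0 : ℤ) - (t : ℤ) ^ 2) = -(u : ℤ) := by rw [huZ, hvZ]; ring
      rw [e1, dvd_neg]; exact_mod_cast hd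
    · exact hbig m (by omega) u hu0 (by omega) hd
  have sw : ∀ n, Odd n → 3 ≤ n → ¬ n ^ 2 ∣ (u + 2 * v) := by
    intro n hn hn3 hd
    obtain ⟨m, rfl⟩ := hn
    by_cases hm : m ≤ t
    · apply (hsq m (mem_Icc.mpr ⟨by omega, hm⟩)).2.1
      have e1 : 8 * (k : ℤ) + ((c0 : ℤ) + (t : ℤ) ^ 2) = ((u + 2 * v : ℕ) : ℤ) := by
        push_cast; rw [huZ, hvZ]; ring
      rw [e1]; exact_mod_cast hd
    · exact hbig m (by omega) (u + 2 * v) (by omega) (by omega) hd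
  -- residues
  have hr8 : r % 8 = 1 ∨ r % 8 = 5 := by omega
  have hres : (u % 8 = (t ^ 2 % 8 + 8 - v % 8) % 8) := by omega
  have hcop : Nat.Coprime v r := by
    rw [Nat.coprime_iff_gcd_eq_one]
    by_contra hg
    obtain ⟨p, hp, hpg⟩ := Nat.exists_prime_and_dvd hg
    have hpv : p ∣ v := hpg.trans (Nat.gcd_dvd_left _ _)
    have hpr : p ∣ r := hpg.trans (Nat.gcd_dvd_right _ _)
    have hple : p ≤ r := Nat.le_of_dvd hr1 hpr
    have hp11 : 11 ≤ p := by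
      by_contra hlt
      have hp2 := hp.two_le
      have hp420 : p ∣ 420 := by
        interval_cases p <;> first | decide | (exfalso; revert hp; norm_num)
      have h1 : p ∣ 1 := by
        have h2 : r = 420 * (r / 420) + 1 := by omega
        have h3 : p ∣ 420 * (r / 420) := hp420.mul_right _
        rw [h2] at hpr
        exact (Nat.dvd_add_right h3).mp hpr
      have := Nat.dvd_one.mp h1
      omega
    apply hcp p (mem_filter.mpr ⟨mem_Icc.mpr ⟨hp11, by omega⟩, hpr⟩)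
    rw [← hvZ]; exact_mod_cast hpv
  refine ⟨v * u * (u + 2 * v), ?_, ?_, ?_, congr_area t v u ht1 hv0 hu0 hu⟩
  · push_cast
    rw [huZ, ← hvZ]; ring
  · rcases hcase with ⟨rfl, hj, hc⟩ | ⟨rfl, hj, hc⟩
    · -- `t = 2 r`, `v` odd
      have ht2 : t ^ 2 = 4 * (r * r) := by rw [ht]; ring
      have hvodd : v % 2 = 1 := by omega
      have huodd : u % 2 = 1 := by omega
      have hcopt : Nat.Coprime v t := by
        rw [ht]
        exact Nat.Coprime.mul_right ((Nat.coprime_two_left.mpr (Nat.odd_iff.mpr hvodd)).symm) hcop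
      exact prod_sqf t v u hu hcopt (Nat.odd_iff.mpr huodd)
        (sqf v (by omega) sv) (sqf u (by omega) su) (sqf _ (by omega) sw)
    · have ht2 : t = r := by rw [ht]; ring
      have htt : t ^ 2 % 8 = 1 := by
        rw [ht2, Nat.pow_mod]
        rcases hr8 with h | h <;> rw [h]
      have hcopt : Nat.Coprime v t := by rw [ht2]; exact hcop
      exact prod_sqf t v u hu hcopt (Nat.odd_iff.mpr (by omega))
        (sqf v (by omega) sv) (sqf u (by omega) su) (sqf _ (by omega) sw)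
  · rcases hcase with ⟨rfl, hj, hc⟩ | ⟨rfl, hj, hc⟩
    · have ht2 : t ^ 2 % 8 = 4 := by
        rw [ht, Nat.pow_mod, Nat.mul_mod]
        rcases hr8 with h | h <;> rw [h]
      have hv8 : v % 8 = 8 - j := by omega
      have hu8 : u % 8 = (4 + j) % 8 := by omega
      have hw8 : (u + 2 * v) % 8 = (20 - j) % 8 := by omega
      rw [Nat.mul_mod, Nat.mul_mod v u, hv8, hu8, hw8]
      rcases hj with rfl | rfl | rfl | rfl <;> norm_num
    · have ht2 : t = r := by rw [ht]; ring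
      have htt : t ^ 2 % 8 = 1 := by
        rw [ht2, Nat.pow_mod]
        rcases hr8 with h | h <;> rw [h]
      have hv8 : v % 8 = j := by omega
      have hu8 : u % 8 = (9 - j) % 8 := by omega
      have hw8 : (u + 2 * v) % 8 = (9 + j) % 8 := by omega
      rw [Nat.mul_mod, Nat.mul_mod v u, hv8, hu8, hw8]
      rcases hj with rfl | rfl <;> norm_num

end Pool.Agent.H15T.Cong
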