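import Pool.Agent.H15T.CongC

set_option autoImplicit false
set_option maxHeartbeats 4000000

namespace Pool.Agent.H15T.Cong

open Finset

/-- the system `x² + n y² = z²`, `x² - n y² = w²` has a solution in positive integers `≤ H` -/
def Sol (n H : ℕ) : Prop :=
  ∃ x y z w : ℕ, 0 < x ∧ 0 < y ∧ 0 < z ∧ 0 < w ∧ x ^ 2 + n * y ^ 2 = z ^ 2 ∧
    x ^ 2 = n * y ^ 2 + w ^ 2 ∧ x ≤ H ∧ y ≤ H ∧ z ≤ H ∧ w ≤ H

lemma sol (t v u : ℕ) (ht : 1 ≤ t) (hv : 0 < v) (hu : 0 < u) (h : u + v = t ^ 2)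
    (hsq : Squarefree (v * u * (u + 2 * v))) (h1 : v * u * (u + 2 * v) ≠ 1) :
    Sol (v * u * (u + 2 * v)) (3 * t ^ 4) := by
  have hh : (u : ℤ) + v = (t : ℤ) ^ 2 := by exact_mod_cast h
  have ht2 : 1 ≤ t ^ 2 := Nat.one_le_pow _ _ ht
  have e4 : t ^ 4 = (u + v) * (u + v) := by rw [h]; ring
  have e4' : (t : ℤ) ^ 4 = (u + v) * (u + v) := by rw [hh]; ring
  obtain ⟨w, hw⟩ : ∃ w : ℤ, w = ((u : ℤ) + v) * (u + v) - v * v - 2 * ((u + v) * v) := ⟨_, rfl⟩
  have hrel : ((t : ℤ) ^ 4 + v ^ 2) ^ 2 = ((v * u * (u + 2 * v) : ℕ) : ℤ) * (2 * t) ^ 2 + w ^ 2 := by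
    rw [hw, e4']
    have : (2 * (t : ℤ)) ^ 2 = 4 * (u + v) := by rw [mul_pow, ← hh]; ring
    rw [this]; push_cast; ring
  have hw0 : w ≠ 0 := by
    intro h0
    rw [h0] at hrel
    have h2 : (t ^ 4 + v ^ 2) ^ 2 = (v * u * (u + 2 * v)) * (2 * t) ^ 2 := by
      have : (((t ^ 4 + v ^ 2) ^ 2 : ℕ) : ℤ) = (((v * u * (u + 2 * v)) * (2 * t) ^ 2 : ℕ) : ℤ) := by
        push_cast at hrel ⊢
        rw [hrel]; ring
      exact_mod_cast this
    obtain ⟨c, hc⟩ : (2 * t) ∣ (t ^ 4 + v ^ 2) := by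
      have : (2 * t) ^ 2 ∣ (t ^ 4 + v ^ 2) ^ 2 := ⟨v * u * (u + 2 * v), by rw [h2]; ring⟩
      exact (Nat.pow_dvd_pow_iff (by norm_num)).mp this
    rw [hc] at h2
    have h3 : c ^ 2 = v * u * (u + 2 * v) := by
      have h4 : (2 * t) ^ 2 * c ^ 2 = (2 * t) ^ 2 * (v * u * (u + 2 * v)) := by
        calc (2 * t) ^ 2 * c ^ 2 = (2 * t * c) ^ 2 := by ring
          _ = _ := by rw [h2]; ring
      exact Nat.eq_of_mul_eq_mul_left (by positivity) h4
    rw [← h3] at hsq h1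
    have h5 : IsUnit c := hsq c ⟨1, by ring⟩
    rw [Nat.isUnit_iff] at h5
    rw [h5] at h1
    exact h1 (by norm_num)
  refine ⟨t ^ 4 + v ^ 2, 2 * t, (u + v) * (u + v) - v * v + 2 * ((u + v) * v), w.natAbs,
    by positivity, by positivity, ?_, Int.natAbs_pos.mpr hw0, ?_, ?_, ?_, ?_, ?_, ?_⟩
  · have : 0 < (u + v) * v := by positivity
    omega
  · have e : (u + v) * (u + v) - v * v = u * (u + 2 * v) := by
      have : (u + v) * (u + v) = u * (u + 2 * v) + v * v := by ring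
      omega
    rw [e, e4]
    have e2 : (2 * t) ^ 2 = 4 * (u + v) := by rw [h]; ring
    rw [e2]; ring
  · have : (((t ^ 4 + v ^ 2) ^ 2 : ℕ) : ℤ) =
        (((v * u * (u + 2 * v)) * (2 * t) ^ 2 + w.natAbs ^ 2 : ℕ) : ℤ) := by
      push_cast at hrel ⊢
      rw [sq_abs]; exact hrel
    exact_mod_cast this
  · rw [e4]; nlinarith
  · nlinarith [Nat.pow_le_pow_right ht (by norm_num : 1 ≤ 4), Nat.pow_le_pow_left ht 3,
      pow_succ t 3]
  · rw [e4]
    have : v * v ≤ (u + v) * (u + v) := by nlinarith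
    have h6 : (u + v) * v ≤ (u + v) * (u + v) := by nlinarith
    omega
  · have h7 : w.natAbs ≤ 3 * ((u + v) * (u + v)) := by
      have h8 : |w| ≤ 3 * (((u : ℤ) + v) * (u + v)) := by
        rw [hw, abs_le]
        have hu' : (0 : ℤ) ≤ u := by positivity
        have hv' : (0 : ℤ) ≤ v := by positivity
        constructor <;> nlinarith [mul_nonneg hu' hv', mul_nonneg hu' hu', mul_nonneg hv' hv']
      have h9 : ((w.natAbs : ℕ) : ℤ) ≤ ((3 * ((u + v) * (u + v)) : ℕ) : ℤ) := by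
        push_cast
        exact h8
      exact_mod_cast h9
    rw [e4]; exact h7

/-- the arithmetic part: a good `v` in a window -/
lemma good_v2 (r e c0 k0 N : ℕ) (j : ℕ) (hr : r % 420 = 1) (hrN : r ≤ N)
    (hw : wt N r ≤ 3 / 20)
    (hcase : (e = 2 ∧ (j = 5 ∨ j = 7) ∧ c0 = 8 - j) ∨
      (e = 1 ∧ j = 6 ∧ c0 = j))
    (hsz : 8 * (k0 + 71 * r) + 8 ≤ (e * r) ^ 2) :
    ∃ k, k0 ≤ k ∧ k < k0 + 71 * r ∧ ∃ n : ℕ,
      (n : ℤ) = (8 * k + c0) * (((e * r : ℕ) : ℤ) ^ 4 - (8 * k + c0) ^ 2) ∧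
      Squarefree n ∧ n % 8 = j ∧
      Sol n (3 * (e * r) ^ 4) := by
  have hr1 : 1 ≤ r := by omega
  have he : e = 1 ∨ e = 2 := by rcases hcase with h | h <;> omega
  obtain ⟨k, hk1, hk2, hsq, hcp⟩ := sieve r (e * r) (71 * r) k0 N (c0 : ℤ) (((e * r : ℕ) : ℤ) ^ 2)
    hr1 (by rcases he with rfl | rfl <;> omega) (by omega) hw (by
      intro m hm
      left
      by_contra hcon
      have h2 : 2 ∣ m := by omega
      have h3 : 2 ∣ r := h2.trans hm
      omega)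
  refine ⟨k, hk1, hk2, ?_⟩
  obtain ⟨t, ht⟩ : ∃ t : ℕ, t = e * r := ⟨_, rfl⟩
  rw [← ht] at hsq hsz ⊢
  obtain ⟨v, hv⟩ : ∃ v : ℕ, v = 8 * k + c0 := ⟨_, rfl⟩
  have hc08 : c0 ≤ 7 ∧ 1 ≤ c0 := by rcases hcase with h | h <;> omega
  have hvt : v < t ^ 2 := by omega
  obtain ⟨u, hu⟩ : ∃ u : ℕ, u + v = t ^ 2 := ⟨t ^ 2 - v, by omega⟩
  have ht1 : 1 ≤ t := by
    rw [ht]
    rcases he with rfl | rfl <;> omega
  have hvZ : (v : ℤ) = 8 * (k : ℤ) + (c0 : ℤ) := by rw [hv]; push_cast; ring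
  have huZ : (u : ℤ) = (t : ℤ) ^ 2 - v := by
    have : ((u + v : ℕ) : ℤ) = ((t ^ 2 : ℕ) : ℤ) := by rw [hu]
    push_cast at this; linarith
  -- no odd squares
  have hv0 : 0 < v := by omega
  have hu0 : 0 < u := by omega
  have hbig : ∀ m : ℕ, t < m → ∀ w : ℕ, 0 < w → w ≤ 2 * t ^ 2 → ¬ (2 * m + 1) ^ 2 ∣ w := by
    intro m hm w hw0 hw2 hd
    have h1 := Nat.le_of_dvd hw0 hd
    nlinarith
  have sv : ∀ n, Odd n → 3 ≤ n → ¬ n ^ 2 ∣ v := by
    intro n hn hn3 hd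
    obtain ⟨m, rfl⟩ := hn
    by_cases hm : m ≤ t
    · apply (hsq m (mem_Icc.mpr ⟨by omega, hm⟩)).1
      rw [← hvZ]; exact_mod_cast hd
    · exact hbig m (by omega) v hv0 (by omega) hd
  have su : ∀ n, Odd n → 3 ≤ n → ¬ n ^ 2 ∣ u := by
    intro n hn hn3 hd
    obtain ⟨m, rfl⟩ := hn
    by_cases hm : m ≤ t
    · apply (hsq m (mem_Icc.mpr ⟨by omega, hm⟩)).2.2
      have e1 : 8 * (k : ℤ) + ((c0 : ℤ) - (t : ℤ) ^ 2) = -(u : ℤ) := by rw [huZ, hvZ]; ring
      rw [e1, dvd_neg]; exact_mod_cast hd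
    · exact hbig m (by omega) u hu0 (by omega) hd
  have sw : ∀ n, Odd n → 3 ≤ n → ¬ n ^ 2 ∣ (u + 2 * v) := by
    intro n hn hn3 hd
    obtain ⟨m, rfl⟩ := hn
    by_cases hm : m ≤ t
    · apply (hsq m (mem_Icc.mpr ⟨by omega, hm⟩)).2.1
      have e1 : 8 * (k : ℤ) + ((c0 : ℤ) + (t : ℤ) ^ 2) = ((u + 2 * v : ℕ) : ℤ) := by
        push_cast; rw [huZ, hvZ]; ring
      rw [e1]; exact_mod_cast hd
    · exact hbig m (by omega) (u + 2 * v) (by omega) (by omega) hd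
  -- residues
  have hr8 : r % 8 = 1 ∨ r % 8 = 5 := by omega
  have hres : (u % 8 = (t ^ 2 % 8 + 8 - v % 8) % 8) := by omega
  have hcop : Nat.Coprime v r := by
    rw [Nat.coprime_iff_gcd_eq_one]
    by_contra hg
    obtain ⟨p, hp, hpg⟩ := Nat.exists_prime_and_dvd hg
    have hpv : p ∣ v := hpg.trans (Nat.gcd_dvd_left _ _)
    have hpr : p ∣ r := hpg.trans (Nat.gcd_dvd_right _ _)
    have hple : p ≤ r := Nat.le_of_dvd hr1 hpr
    have hp11 : 11 ≤ p := by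
      by_contra hlt
      have hp2 := hp.two_le
      have hp420 : p ∣ 420 := by
        interval_cases p <;> first | decide | (exfalso; revert hp; norm_num)
      have h1 : p ∣ 1 := by
        have h2 : r = 420 * (r / 420) + 1 := by omega
        have h3 : p ∣ 420 * (r / 420) := hp420.mul_right _
        rw [h2] at hpr
        exact (Nat.dvd_add_right h3).mp hpr
      have := Nat.dvd_one.mp h1
      omega
    apply hcp p (mem_filter.mpr ⟨mem_Icc.mpr ⟨hp11, by omega⟩, hpr⟩)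
    rw [← hvZ]; exact_mod_cast hpv
  have hsq0 : Squarefree (v * u * (u + 2 * v)) ∧ v * u * (u + 2 * v) % 8 = j := by
    constructor
    swap
    · rcases hcase with ⟨rfl, hj, hc⟩ | ⟨rfl, hj, hc⟩
      · have ht2 : t ^ 2 % 8 = 4 := by
          rw [ht, Nat.pow_mod, Nat.mul_mod]
          rcases hr8 with h | h <;> rw [h]
        have hv8 : v % 8 = 8 - j := by omega
        have hu8 : u % 8 = (4 + j) % 8 := by omega
        have hw8 : (u + 2 * v) % 8 = (20 - j) % 8 := by omega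
        rw [Nat.mul_mod, Nat.mul_mod v u, hv8, hu8, hw8]
        rcases hj with rfl | rfl <;> norm_num
      · have ht2 : t = r := by rw [ht]; ring
        have htt : t ^ 2 % 8 = 1 := by
          rw [ht2, Nat.pow_mod]
          rcases hr8 with h | h <;> rw [h]
        have hv8 : v % 8 = j := by omega
        have hu8 : u % 8 = (9 - j) % 8 := by omega
        have hw8 : (u + 2 * v) % 8 = (9 + j) % 8 := by omega
        rw [Nat.mul_mod, Nat.mul_mod v u, hv8, hu8, hw8]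
        subst hj; norm_num
    · rcases hcase with ⟨rfl, hj, hc⟩ | ⟨rfl, hj, hc⟩
      · -- `t = 2 r`, `v` odd
        have ht2 : t ^ 2 = 4 * (r * r) := by rw [ht]; ring
        have hvodd : v % 2 = 1 := by omega
        have huodd : u % 2 = 1 := by omega
        have hcopt : Nat.Coprime v t := by
          rw [ht]
          exact Nat.Coprime.mul_right ((Nat.coprime_two_left.mpr (Nat.odd_iff.mpr hvodd)).symm) hcop
        exact prod_sqf t v u hu hcopt (Nat.odd_iff.mpr huodd)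
          (sqf v (by omega) sv) (sqf u (by omega) su) (sqf _ (by omega) sw)
      · have ht2 : t = r := by rw [ht]; ring
        have htt : t ^ 2 % 8 = 1 := by
          rw [ht2, Nat.pow_mod]
          rcases hr8 with h | h <;> rw [h]
        have hcopt : Nat.Coprime v t := by rw [ht2]; exact hcop
        exact prod_sqf t v u hu hcopt (Nat.odd_iff.mpr (by omega))
          (sqf v (by omega) sv) (sqf u (by omega) su) (sqf _ (by omega) sw)
  refine ⟨v * u * (u + 2 * v), ?_, hsq0.1, hsq0.2,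
    sol t v u ht1 hv0 hu0 hu hsq0.1 (by rcases hcase with h | h <;> omega)⟩
  · push_cast
    rw [huZ, ← hvZ]; ring
end Pool.Agent.H15T.Cong
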