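import Mathlib

set_option autoImplicit false
set_option maxHeartbeats 4000000

namespace Pool.Agent.H15T.Cong

/-- the size part: `t ≥ T + 2000`, `w = a t²`, `3 a² = 1`, `X = 2 a³ T⁶` -/
lemma size (a T t X s : ℝ) (ha : 0 < a) (ha3 : 3 * a ^ 2 = 1) (hT : 0 ≤ T) (hX : 2 * a ^ 3 * T ^ 6 = X)
    (G : ℝ) (hG : 2000 ≤ G) (ht1 : T + 2000 ≤ t) (ht2 : t ≤ T + G)
    (hs0 : 0 ≤ s) (hs : 9 * (s ^ 2 * t ^ 2) = 2 * (t ^ 6 - T ^ 6)) :
    600 * t ≤ s ∧ s ≤ a * t ^ 2 ∧ s ^ 2 ≤ 4 / 3 * G * t ^ 3 ∧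
    ∀ δ v : ℝ, 0 ≤ δ → δ ≤ 600 * t → v = a * t ^ 2 - s + δ →
      X ≤ v * (t ^ 4 - v ^ 2) ∧
      v * (t ^ 4 - v ^ 2) ≤ X + 3 * (a * t ^ 2) * (600 * t) * (2 * s) + s ^ 3 := by
  have ht0 : 2000 ≤ t := by linarith
  have htpos : 0 < t := by linarith
  have ha1 : a ≤ 1 := by nlinarith
  have hTt : T ≤ t := by linarith
  -- `t^6 - T^6`
  have hfac : t ^ 6 - T ^ 6 = (t - T) * (t ^ 5 + t ^ 4 * T + t ^ 3 * T ^ 2 + t ^ 2 * T ^ 3 + t * T ^ 4 + T ^ 5) := by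
    ring
  have hsum1 : t ^ 5 ≤ t ^ 5 + t ^ 4 * T + t ^ 3 * T ^ 2 + t ^ 2 * T ^ 3 + t * T ^ 4 + T ^ 5 := by
    have : 0 ≤ t ^ 4 * T + t ^ 3 * T ^ 2 + t ^ 2 * T ^ 3 + t * T ^ 4 + T ^ 5 := by positivity
    linarith
  have hsum2 : t ^ 5 + t ^ 4 * T + t ^ 3 * T ^ 2 + t ^ 2 * T ^ 3 + t * T ^ 4 + T ^ 5 ≤ 6 * t ^ 5 := by
    have e1 : t ^ 4 * T ≤ t ^ 4 * t := mul_le_mul_of_nonneg_left hTt (by positivity)
    have e2 : t ^ 3 * T ^ 2 ≤ t ^ 3 * t ^ 2 :=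
      mul_le_mul_of_nonneg_left (pow_le_pow_left₀ hT hTt 2) (by positivity)
    have e3 : t ^ 2 * T ^ 3 ≤ t ^ 2 * t ^ 3 :=
      mul_le_mul_of_nonneg_left (pow_le_pow_left₀ hT hTt 3) (by positivity)
    have e4 : t * T ^ 4 ≤ t * t ^ 4 :=
      mul_le_mul_of_nonneg_left (pow_le_pow_left₀ hT hTt 4) (by positivity)
    have e5 : T ^ 5 ≤ t ^ 5 := pow_le_pow_left₀ hT hTt 5
    nlinarith
  have hlow : 2000 * t ^ 5 ≤ t ^ 6 - T ^ 6 := by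
    rw [hfac]
    calc 2000 * t ^ 5 ≤ (t - T) * t ^ 5 := mul_le_mul_of_nonneg_right (by linarith) (by positivity)
      _ ≤ _ := mul_le_mul_of_nonneg_left hsum1 (by linarith)
  have hup : t ^ 6 - T ^ 6 ≤ G * (6 * t ^ 5) := by
    rw [hfac]
    calc _ ≤ (t - T) * (6 * t ^ 5) := mul_le_mul_of_nonneg_left hsum2 (by linarith)
      _ ≤ _ := mul_le_mul_of_nonneg_right (by linarith) (by positivity)
  have ht2pos : 0 < t ^ 2 := by positivity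
  have hs1 : 600 * t ≤ s := by
    by_contra hcon
    push Not at hcon
    have h1 : s ^ 2 < (600 * t) ^ 2 := pow_lt_pow_left₀ hcon hs0 (by norm_num)
    have h2 : 9 * (s ^ 2 * t ^ 2) < 9 * ((600 * t) ^ 2 * t ^ 2) := by
      have := mul_lt_mul_of_pos_right h1 ht2pos
      linarith
    have h3 : 9 * ((600 * t) ^ 2 * t ^ 2) = 3240000 * t ^ 4 := by ring
    have h4 : 2 * (2000 * t ^ 5) ≤ 9 * (s ^ 2 * t ^ 2) := by rw [hs]; linarith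
    have h5 : 2 * (2000 * t ^ 5) = 4000 * t * t ^ 4 := by ring
    have h6 : 3240000 * t ^ 4 ≤ 4000 * t * t ^ 4 :=
      mul_le_mul_of_nonneg_right (by linarith) (by positivity)
    linarith
  have hs2 : s ^ 2 ≤ 4 / 3 * G * t ^ 3 := by
    have h1 : 9 * (s ^ 2 * t ^ 2) ≤ 2 * (G * (6 * t ^ 5)) := by rw [hs]; linarith
    have h2 : 2 * (G * (6 * t ^ 5)) = 9 * ((4 / 3 * G * t ^ 3) * t ^ 2) := by ring
    have h3 : s ^ 2 * t ^ 2 ≤ (4 / 3 * G * t ^ 3) * t ^ 2 := by linarith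
    exact le_of_mul_le_mul_right h3 ht2pos
  have hs3 : s ≤ a * t ^ 2 := by
    apply le_of_sq_le_sq _ (by positivity)
    have h1 : 9 * (s ^ 2 * t ^ 2) ≤ 2 * t ^ 6 := by
      rw [hs]
      have : 0 ≤ T ^ 6 := by positivity
      linarith
    have h2 : 2 * t ^ 6 = 2 * t ^ 4 * t ^ 2 := by ring
    have h3 : 9 * s ^ 2 ≤ 2 * t ^ 4 := by
      have : 9 * s ^ 2 * t ^ 2 ≤ 2 * t ^ 4 * t ^ 2 := by linarith
      exact le_of_mul_le_mul_right this ht2pos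
    have h4 : (a * t ^ 2) ^ 2 = t ^ 4 / 3 := by
      have : (a * t ^ 2) ^ 2 = (3 * a ^ 2) * t ^ 4 / 3 := by ring
      rw [this, ha3]; ring
    rw [h4]
    have : 0 ≤ t ^ 4 := by positivity
    linarith
  refine ⟨hs1, hs3, hs2, ?_⟩
  intro δ v hδ0 hδ hv
  obtain ⟨w, hw⟩ : ∃ w : ℝ, w = a * t ^ 2 := ⟨_, rfl⟩
  have hw0 : 0 ≤ w := by rw [hw]; positivity
  have hw2 : 3 * w ^ 2 = t ^ 4 := by
    rw [hw]
    have : 3 * (a * t ^ 2) ^ 2 = (3 * a ^ 2) * t ^ 4 := by ring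
    rw [this, ha3, one_mul]
  have hw3 : 3 * w * s ^ 2 = 2 * w ^ 3 - X := by
    rw [← hX, hw]
    have h1 : 9 * (3 * (a * t ^ 2) * s ^ 2) = 9 * (2 * (a * t ^ 2) ^ 3 - 2 * a ^ 3 * T ^ 6) := by
      have e1 : 9 * (3 * (a * t ^ 2) * s ^ 2) = 3 * a * (9 * (s ^ 2 * t ^ 2)) := by ring
      rw [e1, hs]
      have e2 : 9 * (2 * (a * t ^ 2) ^ 3 - 2 * a ^ 3 * T ^ 6) = 6 * a * (3 * a ^ 2) * (t ^ 6 - T ^ 6) := by ring
      rw [e2, ha3]; ring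
    linarith
  have hv' : v = w - (s - δ) := by rw [hv, hw]; ring
  have hs' : 0 ≤ s - δ := by linarith
  have hval : v * (t ^ 4 - v ^ 2) = X + 3 * w * δ * (2 * s - δ) + (s - δ) ^ 3 := by
    rw [hv', ← hw2]
    have e : X = 2 * w ^ 3 - 3 * w * s ^ 2 := by linarith
    rw [e]; ring
  rw [hval, ← hw]
  constructor
  · have h1 : 0 ≤ 3 * w * δ * (2 * s - δ) :=
      mul_nonneg (by positivity) (by linarith)
    have h2 : 0 ≤ (s - δ) ^ 3 := by positivity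
    linarith
  · have h1 : 3 * w * δ * (2 * s - δ) ≤ 3 * w * (600 * t) * (2 * s) := by
      apply mul_le_mul
      · exact mul_le_mul_of_nonneg_left hδ (by positivity)
      · linarith
      · linarith
      · positivity
    have h2 : (s - δ) ^ 3 ≤ s ^ 3 := pow_le_pow_left₀ hs' (by linarith) 3
    linarith

end Pool.Agent.H15T.Cong
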