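import Pool.Agent.H15T.CongC2
import Pool.Agent.H15T.CongE

set_option autoImplicit false
set_option maxHeartbeats 4000000

namespace Pool.Agent.H15T.Cong

/-- existence of `t` and of the good `v`, with bounds -/
lemma exists_n2 (X : ℝ) (hX : 1 ≤ X) (e c0 j : ℕ)
    (hcase : (e = 2 ∧ (j = 5 ∨ j = 7) ∧ c0 = 8 - j) ∨
      (e = 1 ∧ j = 6 ∧ c0 = j)) :
    ∃ n : ℕ, X ≤ n ∧ (n : ℝ) ≤ X + (3 * 330000 * 4000000 ^ 3 * Real.sqrt (440000 * 4000000 ^ 3)) *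
      (X ^ (3 / 4 : ℝ) * (1 + Real.log X) ^ (3 / 2 : ℝ)) ∧ Squarefree n ∧ n % 8 = j ∧
      ∃ H : ℕ, (H : ℝ) ≤ 3 * 4000000 ^ 4 * (n : ℝ) ^ (2 / 3 : ℝ) ∧ Sol n H := by
  have hX0 : (0 : ℝ) < X := by linarith
  have he : e = 1 ∨ e = 2 := by rcases hcase with h | h <;> omega
  have heR : (1 : ℝ) ≤ e ∧ (e : ℝ) ≤ 2 := by
    rcases he with rfl | rfl <;> norm_num
  have hlogX : 0 ≤ Real.log X := Real.log_nonneg hX
  -- the constant a
  obtain ⟨a, ha, ha3⟩ : ∃ a : ℝ, 0 < a ∧ 3 * a ^ 2 = 1 := by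
    refine ⟨1 / Real.sqrt 3, by positivity, ?_⟩
    rw [div_pow, Real.sq_sqrt (by norm_num)]; norm_num
  have ha1 : a ≤ 1 := by nlinarith
  have ha2 : 1 / 2 ≤ a := by nlinarith
  have ha33 : 1 / 8 ≤ a ^ 3 := by
    have := pow_le_pow_left₀ (by norm_num : (0 : ℝ) ≤ 1 / 2) ha2 3
    norm_num at this ⊢; linarith
  obtain ⟨Z, hZ⟩ : ∃ Z : ℝ, Z = X ^ (1 / 12 : ℝ) := ⟨_, rfl⟩
  have hZ1 : 1 ≤ Z := by rw [hZ]; exact Real.one_le_rpow hX (by norm_num)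
  have hZ12 : Z ^ 12 = X := by
    rw [hZ, ← Real.rpow_natCast, ← Real.rpow_mul hX0.le]; norm_num
  have hZ9 : Z ^ 9 = X ^ (3 / 4 : ℝ) := by
    rw [hZ, ← Real.rpow_natCast, ← Real.rpow_mul hX0.le]; norm_num
  have hlogZ : Real.log X = 12 * Real.log Z := by
    rw [← hZ12, Real.log_pow]; norm_num
  have hlogZ2 : Real.log Z ≤ Z - 1 := Real.log_le_sub_one_of_pos (by linarith)
  have hZsq : Z ≤ Z ^ 2 := by nlinarith
  have hZsq1 : 1 ≤ Z ^ 2 := by nlinarith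
  obtain ⟨L, hL⟩ : ∃ L : ℝ, L = 1 + Real.log X := ⟨_, rfl⟩
  have hL1 : 1 ≤ L := by linarith
  have hLZ : L ≤ 12 * Z ^ 2 := by nlinarith
  -- T
  obtain ⟨T, hT0, hT6⟩ : ∃ T : ℝ, 0 ≤ T ∧ 2 * a ^ 3 * T ^ 6 = X := by
    refine ⟨(X / (2 * a ^ 3)) ^ (1 / 6 : ℝ), by positivity, ?_⟩
    rw [← Real.rpow_natCast _ 6, ← Real.rpow_mul (by positivity)]
    norm_num
    field_simp
  have hTZ : T ≤ 2 * Z ^ 2 := by
    by_contra hcon
    push Not at hcon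
    have h1 : (2 * Z ^ 2) ^ 6 < T ^ 6 := pow_lt_pow_left₀ hcon (by positivity) (by norm_num)
    have h2 : (2 * Z ^ 2) ^ 6 = 64 * X := by rw [← hZ12]; ring
    have h3 : 1 / 4 * T ^ 6 ≤ X := by
      rw [← hT6]
      apply mul_le_mul_of_nonneg_right _ (by positivity)
      linarith
    linarith
  -- the window for r
  obtain ⟨i0, hi0⟩ : ∃ i0 : ℕ, i0 = ⌈(T + 2000) / (420 * e)⌉₊ := ⟨_, rfl⟩
  have he0 : (0 : ℝ) < 420 * e := by linarith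
  have hi1 : (T + 2000) / (420 * e) ≤ i0 := by rw [hi0]; exact Nat.le_ceil _
  have hi2 : (i0 : ℝ) < (T + 2000) / (420 * e) + 1 := by
    rw [hi0]; exact Nat.ceil_lt_add_one (by positivity)
  have hi1' : T + 2000 ≤ i0 * (420 * e) := by
    rwa [div_le_iff₀ he0] at hi1
  have hi2' : i0 * (420 * e) ≤ T + 2000 + 420 * e := by
    have h1 : (i0 : ℝ) * (420 * e) ≤ ((T + 2000) / (420 * e) + 1) * (420 * e) :=
      mul_le_mul_of_nonneg_right hi2.le he0.le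
    have h2 : ((T + 2000) / (420 * (e : ℝ)) + 1) * (420 * (e : ℝ)) = T + 2000 + 420 * e := by
      rw [add_mul, div_mul_cancel₀ _ he0.ne', one_mul]
    linarith
  obtain ⟨B, hB⟩ : ∃ B : ℕ, B = 1 + 420 * i0 := ⟨_, rfl⟩
  have hi0R : (0 : ℝ) ≤ i0 := Nat.cast_nonneg _
  have hBR : (B : ℝ) = 1 + 420 * i0 := by rw [hB]; push_cast; ring
  have hB1000 : (1000 : ℝ) ≤ B := by
    rw [hBR]; nlinarith
  have hB3 : (B : ℝ) ≤ 3000 * Z ^ 2 := by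
    rw [hBR]
    have : (i0 : ℝ) * 420 ≤ T + 2000 + 420 := by
      have h1 : (i0 : ℝ) * 420 * e ≤ (T + 2000 + 420) * e := by
        have h2 : (i0 : ℝ) * 420 * e = i0 * (420 * e) := by ring
        rw [h2]
        nlinarith
      exact le_of_mul_le_mul_right h1 (by linarith)
    nlinarith
  have hlogB : Real.log B ≤ 9 + Real.log X := by
    have h1 : Real.log B ≤ Real.log (3000 * Z ^ 2) :=
      Real.log_le_log (by linarith) hB3
    rw [Real.log_mul (by norm_num) (by positivity), Real.log_pow] at h1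
    have := log_le_nine
    have hlz : 0 ≤ Real.log Z := Real.log_nonneg hZ1
    push_cast at h1
    linarith
  have hlogB0 : 0 ≤ Real.log B := Real.log_nonneg (by linarith)
  obtain ⟨N, hN⟩ : ∃ N : ℕ, N = B * B := ⟨_, rfl⟩
  have hlogN : Real.log N = 2 * Real.log B := by
    rw [hN]; push_cast
    rw [Real.log_mul (by linarith) (by linarith)]; ring
  obtain ⟨D, hD⟩ : ∃ D : ℕ, D = ⌈20 * (1 + Real.log N)⌉₊ := ⟨_, rfl⟩
  have hD1 : 20 * (1 + Real.log N) ≤ D := by rw [hD]; exact Nat.le_ceil _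
  have hD2 : (D : ℝ) < 20 * (1 + Real.log N) + 1 := by
    rw [hD]; exact Nat.ceil_lt_add_one (by rw [hlogN]; positivity)
  rw [hlogN] at hD1 hD2
  have hD3 : 1 ≤ D := by
    have : (20 : ℝ) ≤ D := by linarith
    have : 20 ≤ D := by exact_mod_cast this
    omega
  have hDB : (D : ℝ) ≤ B := by
    have := log_lin B (by linarith)
    linarith
  have hDBn : D ≤ B := by exact_mod_cast hDB
  obtain ⟨i, hi, hw⟩ := choose_r i0 D hD3 N (by rw [hlogN]; exact hD1)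
  obtain ⟨r, hr⟩ : ∃ r : ℕ, r = 1 + 420 * (i0 + i) := ⟨_, rfl⟩
  rw [← hr] at hw
  have hr420 : r % 420 = 1 := by omega
  have hrN : r ≤ N := by
    have hBn : 1000 ≤ B := by exact_mod_cast hB1000
    rw [hN]
    nlinarith
  -- t
  obtain ⟨t, ht⟩ : ∃ t : ℝ, t = ((e * r : ℕ) : ℝ) := ⟨_, rfl⟩
  have hrR : (r : ℝ) = 1 + 420 * (i0 + i) := by rw [hr]; push_cast; ring
  have hiR : (0 : ℝ) ≤ i := Nat.cast_nonneg _
  have hiD : (i : ℝ) ≤ D := by exact_mod_cast hi.le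
  have hte : t = e * (1 + 420 * (i0 + i)) := by rw [ht]; push_cast; rw [hrR]
  have ht1 : T + 2000 ≤ t := by
    rw [hte]; nlinarith
  have ht2 : t ≤ T + 330000 * L := by
    have h1 : t = e + i0 * (420 * e) + 420 * e * i := by rw [hte]; ring
    have h2 : 420 * (e : ℝ) * i ≤ 840 * D := by nlinarith
    rw [h1, hL]
    linarith
  have hrt : (r : ℝ) ≤ t := by
    rw [ht]; push_cast; nlinarith [Nat.cast_nonneg (α := ℝ) r]
  have htpos : 0 < t := by linarith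
  have hTt : T ≤ t := by linarith
  have hd0 : 0 ≤ t ^ 6 - T ^ 6 := by
    have := pow_le_pow_left₀ hT0 hTt 6
    linarith
  obtain ⟨s, hs0, hs⟩ : ∃ s : ℝ, 0 ≤ s ∧ 9 * (s ^ 2 * t ^ 2) = 2 * (t ^ 6 - T ^ 6) := by
    refine ⟨Real.sqrt (2 / 9 * (t ^ 6 - T ^ 6)) / t, by positivity, ?_⟩
    rw [div_pow, Real.sq_sqrt (by positivity)]
    field_simp
  obtain ⟨hsa, hsb, hsc, hsd⟩ := size a T t X s ha ha3 hT0 hT6 (330000 * L) (by linarith) ht1 ht2 hs0 hs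
  -- the starting point
  have hws : 0 ≤ a * t ^ 2 - s := by linarith
  obtain ⟨k0, hk0⟩ : ∃ k0 : ℕ, k0 = ⌈(a * t ^ 2 - s) / 8⌉₊ := ⟨_, rfl⟩
  have hk1 : (a * t ^ 2 - s) / 8 ≤ k0 := by rw [hk0]; exact Nat.le_ceil _
  have hk2 : (k0 : ℝ) < (a * t ^ 2 - s) / 8 + 1 := by
    rw [hk0]; exact Nat.ceil_lt_add_one (by positivity)
  have hat : a * t ^ 2 ≤ t ^ 2 := by nlinarith [sq_nonneg t]
  have hsz : 8 * (k0 + 71 * r) + 8 ≤ (e * r) ^ 2 := by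
    have h1 : (8 * ((k0 : ℝ) + 71 * r) + 8) ≤ t ^ 2 := by linarith
    rw [ht] at h1
    exact_mod_cast h1
  obtain ⟨k, hkk1, hkk2, n, hn, hsqf, hmod, hcong⟩ := good_v2 r e c0 k0 N j hr420 hrN hw hcase hsz
  have hc08 : c0 ≤ 7 := by rcases hcase with h | h <;> omega
  have hkR1 : (k0 : ℝ) ≤ k := by exact_mod_cast hkk1
  have hkR2 : (k : ℝ) ≤ k0 + 71 * r := by exact_mod_cast hkk2.le
  have hcR : (c0 : ℝ) ≤ 7 := by exact_mod_cast hc08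
  have hcR0 : (0 : ℝ) ≤ c0 := Nat.cast_nonneg _
  have hnR : (n : ℝ) = (8 * (k : ℝ) + c0) * (t ^ 4 - (8 * (k : ℝ) + c0) ^ 2) := by
    rw [ht]
    have h1 : ((n : ℤ) : ℝ) = (((8 * k + c0) * (((e * r : ℕ) : ℤ) ^ 4 - (8 * k + c0) ^ 2) : ℤ) : ℝ) := by
      rw [hn]
    push_cast at h1 ⊢
    exact h1
  obtain ⟨hlo, hhi⟩ := hsd ((8 * (k : ℝ) + c0) - (a * t ^ 2 - s)) (8 * (k : ℝ) + c0)
    (by linarith) (by linarith) (by ring)
  rw [← hnR] at hlo hhi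
  have htZ : t ≤ 4000000 * Z ^ 2 := by linarith
  have hH : ((3 * (e * r) ^ 4 : ℕ) : ℝ) ≤ 3 * 4000000 ^ 4 * (n : ℝ) ^ (2 / 3 : ℝ) := by
    have h1 : ((3 * (e * r) ^ 4 : ℕ) : ℝ) = 3 * t ^ 4 := by rw [ht]; push_cast; ring
    have h2 : t ^ 4 ≤ (4000000 * Z ^ 2) ^ 4 := pow_le_pow_left₀ htpos.le htZ 4
    have h3 : Z ^ 8 = X ^ (2 / 3 : ℝ) := by
      rw [hZ, ← Real.rpow_natCast, ← Real.rpow_mul hX0.le]; norm_num
    have h4 : X ^ (2 / 3 : ℝ) ≤ (n : ℝ) ^ (2 / 3 : ℝ) := Real.rpow_le_rpow hX0.le hlo (by norm_num)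
    have h5 : (4000000 * Z ^ 2) ^ 4 = 4000000 ^ 4 * Z ^ 8 := by ring
    rw [h1]
    rw [h5, h3] at h2
    have h6 : (4000000 : ℝ) ^ 4 * X ^ (2 / 3 : ℝ) ≤ 4000000 ^ 4 * (n : ℝ) ^ (2 / 3 : ℝ) :=
      mul_le_mul_of_nonneg_left h4 (by positivity)
    rw [mul_assoc]
    exact mul_le_mul_of_nonneg_left (h2.trans h6) (by norm_num)
  refine ⟨n, hlo, hhi.trans ?_, hsqf, hmod, _, hH, hcong⟩
  -- final estimate
  have ht3 : t ^ 3 ≤ 4000000 ^ 3 * Z ^ 6 := by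
    have := pow_le_pow_left₀ htpos.le htZ 3
    have e1 : (4000000 * Z ^ 2) ^ 3 = 4000000 ^ 3 * Z ^ 6 := by ring
    rwa [e1] at this
  have hLsq : Real.sqrt L ^ 2 = L := Real.sq_sqrt (by linarith)
  have hs4 : s ≤ Real.sqrt (440000 * 4000000 ^ 3) * Real.sqrt L * Z ^ 3 := by
    apply le_of_sq_le_sq _ (by positivity)
    have e1 : (Real.sqrt (440000 * 4000000 ^ 3) * Real.sqrt L * Z ^ 3) ^ 2 =
        (440000 * 4000000 ^ 3) * L * Z ^ 6 := by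
      rw [mul_pow, mul_pow, hLsq, Real.sq_sqrt (by norm_num)]; ring
    rw [e1]
    calc s ^ 2 ≤ 4 / 3 * (330000 * L) * t ^ 3 := hsc
      _ ≤ 4 / 3 * (330000 * L) * (4000000 ^ 3 * Z ^ 6) :=
        mul_le_mul_of_nonneg_left ht3 (by positivity)
      _ = _ := by ring
  have h5 : 3 * (a * t ^ 2) * (600 * t) * (2 * s) + s ^ 3 ≤ 3 * (330000 * L) * t ^ 3 * s :=
    est a t s L htpos.le hs0 ha1 hL1 hsc
  have h6 : 3 * (330000 * L) * t ^ 3 * s ≤ 3 * (330000 * L) * (4000000 ^ 3 * Z ^ 6) *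
      (Real.sqrt (440000 * 4000000 ^ 3) * Real.sqrt L * Z ^ 3) := by
    apply mul_le_mul _ hs4 hs0 (by positivity)
    exact mul_le_mul_of_nonneg_left ht3 (by positivity)
  have h7 : L ^ (3 / 2 : ℝ) = L * Real.sqrt L := by
    rw [Real.sqrt_eq_rpow, ← Real.rpow_one_add' (by linarith) (by norm_num)]
    norm_num
  have h8 : 3 * (330000 * L) * (4000000 ^ 3 * Z ^ 6) *
      (Real.sqrt (440000 * 4000000 ^ 3) * Real.sqrt L * Z ^ 3) =
      (3 * 330000 * 4000000 ^ 3 * Real.sqrt (440000 * 4000000 ^ 3)) *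
      (X ^ (3 / 4 : ℝ) * (1 + Real.log X) ^ (3 / 2 : ℝ)) := by
    rw [← hL, h7, ← hZ9]; ring
  have h9 : X + 3 * (a * t ^ 2) * (600 * t) * (2 * s) + s ^ 3 ≤
      X + 3 * (330000 * L) * t ^ 3 * s := by
    rw [add_assoc]
    exact add_le_add le_rfl h5
  rw [← h8]
  exact h9.trans (add_le_add le_rfl h6)

end Pool.Agent.H15T.Cong
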