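import Mathlib
import Pool.Agent.H15T.Coinc

/-!
# Averaging over all colourings
-/

open Finset

namespace Pool.Agent.H15T

section general

variable {Ω : Type*} [Fintype Ω] [DecidableEq Ω] {n : ℕ}

/-- number of colourings sending `X` into `Q` -/
theorem card_into (X : Finset (Fin n)) (Q : Finset Ω) :
    (univ.filter (fun c : Fin n → Ω => ∀ v ∈ X, c v ∈ Q)).card
      = Q.card ^ X.card * (Fintype.card Ω) ^ (n - X.card) := by
  have : (univ.filter (fun c : Fin n → Ω => ∀ v ∈ X, c v ∈ Q))
      = Fintype.piFinset (fun v => if v ∈ X then Q else univ) := by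
    ext c
    simp only [mem_filter, mem_univ, true_and, Fintype.mem_piFinset]
    constructor
    · intro h v
      by_cases hv : v ∈ X
      · simp [hv, h v hv]
      · simp [hv]
    · intro h v hv
      have := h v
      simpa [hv] using this
  rw [this, Fintype.card_piFinset]
  have h2 : ∀ v : Fin n, (if v ∈ X then Q else univ : Finset Ω).card
      = if v ∈ X then Q.card else Fintype.card Ω := by
    intro v; split_ifs <;> simp
  simp_rw [h2]
  rw [Finset.prod_ite, prod_const, prod_const]
  have h3 : (univ.filter (fun v => v ∈ X)) = X := by ext v; simp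
  have h4 : (univ.filter (fun v => v ∉ X)) = Xᶜ := by ext v; simp
  rw [h3, h4, card_compl, Fintype.card_fin]

/-- number of colourings mapping `X` bijectively onto `Z` -/
theorem card_onto_le (X : Finset (Fin n)) (Z : Finset Ω) (h : Z.card = X.card) :
    (univ.filter (fun c : Fin n → Ω => X.image c = Z)).card
      ≤ X.card.factorial * (Fintype.card Ω) ^ (n - X.card) := by
  classical
  set f : ({x // x ∈ X} ≃ {z // z ∈ Z}) → Finset (Fin n → Ω) := fun e =>
    Fintype.piFinset (fun v => if hv : v ∈ X then {((e ⟨v, hv⟩ : {z // z ∈ Z}) : Ω)} else univ)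
    with hf
  have hsub : (univ.filter (fun c : Fin n → Ω => X.image c = Z)) ⊆ univ.biUnion f := by
    intro c hc
    rw [mem_filter] at hc
    have hc2 := hc.2
    have hinj : Set.InjOn c (X : Set (Fin n)) := by
      rw [← Finset.card_image_iff, hc2, h]
    have hmem : ∀ x : {x // x ∈ X}, c x ∈ Z := fun x => by
      rw [← hc2]; exact mem_image_of_mem c x.2
    let g : {x // x ∈ X} → {z // z ∈ Z} := fun x => ⟨c x, hmem x⟩
    have hg : Function.Bijective g := by
      constructor
      · intro x y hxy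
        have : c x = c y := congrArg Subtype.val hxy
        exact Subtype.ext (hinj x.2 y.2 this)
      · rintro ⟨z, hz⟩
        rw [← hc2] at hz
        obtain ⟨x, hx, rfl⟩ := mem_image.mp hz
        exact ⟨⟨x, hx⟩, rfl⟩
    rw [mem_biUnion]
    refine ⟨Equiv.ofBijective g hg, mem_univ _, ?_⟩
    rw [hf, Fintype.mem_piFinset]
    intro v
    by_cases hv : v ∈ X
    · simp only [hv, dif_pos, mem_singleton]
      rfl
    · simp [hv]
  refine (card_le_card hsub).trans (card_biUnion_le.trans ?_)
  have hcard : ∀ e ∈ (univ : Finset ({x // x ∈ X} ≃ {z // z ∈ Z})),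
      (f e).card = (Fintype.card Ω) ^ (n - X.card) := by
    intro e _
    rw [hf]
    simp only
    rw [Fintype.card_piFinset]
    have h2 : ∀ v : Fin n, (if hv : v ∈ X then {((e ⟨v, hv⟩ : {z // z ∈ Z}) : Ω)} else univ :
        Finset Ω).card = if v ∈ X then 1 else Fintype.card Ω := by
      intro v; split_ifs <;> simp
    simp_rw [h2]
    rw [Finset.prod_ite, prod_const, prod_const, one_pow, one_mul]
    have h4 : (univ.filter (fun v => v ∉ X)) = Xᶜ := by ext v; simp
    rw [h4, card_compl, Fintype.card_fin]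
  rw [Finset.sum_congr rfl hcard, Finset.sum_const, smul_eq_mul, card_univ]
  have e0 : {x // x ∈ X} ≃ {z // z ∈ Z} := Fintype.equivOfCardEq (by simp [h])
  rw [Fintype.card_equiv e0]
  simp

end general

variable {m : ℕ} {N : Fin m → ℕ} {n : ℕ}

open Classical in
theorem card_edge_le (q r : ℕ) (A : (j : Fin m) → Finset (Finset (Fin (N j))))
    (hA1 : ∀ j, ∀ Z ∈ A j, Z.card = r) (X : Finset (Fin n)) (hX : X.card = r) :
    (univ.filter (fun c : Fin n → (Σ j : Fin m, Fin (N j)) => IsEdge q A c X)).card
      ≤ (∑ j, ((N j).choose q * q ^ r + (A j).card * r.factorial))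
        * (Fintype.card (Σ j : Fin m, Fin (N j))) ^ (n - r) := by
  set W := Fintype.card (Σ j : Fin m, Fin (N j)) with hW
  have hsub : (univ.filter (fun c : Fin n → (Σ j : Fin m, Fin (N j)) => IsEdge q A c X)) ⊆
      univ.biUnion (fun j : Fin m =>
        ((powersetCard q (univ : Finset (Fin (N j)))).biUnion (fun Q =>
          univ.filter (fun c : Fin n → (Σ j : Fin m, Fin (N j)) =>
            ∀ v ∈ X, c v ∈ Q.map (Function.Embedding.sigmaMk j)))) ∪
        ((A j).biUnion (fun Z =>
          univ.filter (fun c : Fin n → (Σ j : Fin m, Fin (N j)) =>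
            X.image c = Z.map (Function.Embedding.sigmaMk j))))) := by
    intro c hc
    rw [mem_filter] at hc
    obtain ⟨j, hj | hj⟩ := hc.2
    · obtain ⟨Q, hQ1, hQ2⟩ := hj
      rw [mem_biUnion]
      refine ⟨j, mem_univ _, mem_union_left _ ?_⟩
      rw [mem_biUnion]
      refine ⟨Q, mem_powersetCard.mpr ⟨subset_univ _, hQ1⟩, ?_⟩
      rw [mem_filter]
      exact ⟨mem_univ _, hQ2⟩
    · obtain ⟨Z, hZ1, hZ2⟩ := hj
      rw [mem_biUnion]
      refine ⟨j, mem_univ _, mem_union_right _ ?_⟩
      rw [mem_biUnion]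
      refine ⟨Z, hZ1, ?_⟩
      rw [mem_filter]
      exact ⟨mem_univ _, hZ2⟩
  refine (card_le_card hsub).trans (card_biUnion_le.trans ?_)
  rw [Finset.sum_mul]
  refine Finset.sum_le_sum fun j _ => ?_
  refine (card_union_le _ _).trans ?_
  rw [add_mul]
  refine add_le_add ?_ ?_
  · refine card_biUnion_le.trans ?_
    rw [Finset.sum_congr rfl (g := fun _ => q ^ r * W ^ (n - r)), Finset.sum_const, smul_eq_mul,
      card_powersetCard, card_univ, Fintype.card_fin, mul_assoc]
    intro Q hQ
    rw [card_into, card_map, (mem_powersetCard.mp hQ).2, hX]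
  · refine card_biUnion_le.trans ?_
    calc ∑ Z ∈ A j, (univ.filter (fun c : Fin n → (Σ j : Fin m, Fin (N j)) =>
            X.image c = Z.map (Function.Embedding.sigmaMk j))).card
        ≤ ∑ Z ∈ A j, r.factorial * W ^ (n - r) := by
          refine Finset.sum_le_sum fun Z hZ => ?_
          have hz : (Z.map (Function.Embedding.sigmaMk (β := fun j => Fin (N j)) j)).card
              = X.card := by rw [card_map, hA1 j Z hZ, hX]
          have := card_onto_le X (Z.map (Function.Embedding.sigmaMk (β := fun j => Fin (N j)) j)) hz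
          rw [hX] at this
          exact this
      _ = (A j).card * r.factorial * W ^ (n - r) := by
          rw [Finset.sum_const, smul_eq_mul, mul_assoc]

/-- **Averaging**: some colouring has few edges. -/
theorem exists_cover (r : ℕ) (hr : 2 ≤ r) (a : Fin m → ℕ)
    (ha : ∀ j, r ≤ a j) (hN : ∀ j, a j ≤ N j) (hm : 0 < m)
    (A : (j : Fin m) → Finset (Finset (Fin (N j))))
    (hA1 : ∀ j, ∀ Z ∈ A j, Z.card = r)
    (hA : ∀ j, ∀ S : Finset (Fin (N j)), S.card = a j + 2 - r → ∃ Z ∈ A j, Z ⊆ S)
    (n : ℕ) (hn : r ≤ n) :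
    ∃ F : Finset (Finset (Fin n)), (∀ X ∈ F, X.card = r) ∧
      (∀ Y : Finset (Fin n), Y.card = ∑ j, a j + 1 → ∃ X ∈ F, X ⊆ Y) ∧
      F.card * (∑ j, N j) ^ r
        ≤ n.choose r * ∑ j, ((N j).choose (r - r / 2) * (r - r / 2) ^ r
            + (A j).card * r.factorial) := by
  classical
  set W := Fintype.card (Σ j : Fin m, Fin (N j)) with hW
  have hWs : W = ∑ j, N j := by rw [hW, Fintype.card_sigma]; simp
  set G := ∑ j, ((N j).choose (r - r / 2) * (r - r / 2) ^ r + (A j).card * r.factorial) with hG
  have hWpos : 0 < W := by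
    rw [hWs]
    have h1 : N ⟨0, hm⟩ ≤ ∑ j, N j := Finset.single_le_sum (f := N) (fun _ _ => Nat.zero_le _)
      (mem_univ _)
    have := ha ⟨0, hm⟩
    have := hN ⟨0, hm⟩
    omega
  set Fc : (Fin n → (Σ j : Fin m, Fin (N j))) → Finset (Finset (Fin n)) := fun c =>
    (powersetCard r univ).filter (fun X => IsEdge (r - r / 2) A c X) with hFc
  have hsum : ∑ c, (Fc c).card ≤ n.choose r * (G * W ^ (n - r)) := by
    rw [hFc]
    simp_rw [Finset.card_filter]
    rw [Finset.sum_comm]
    calc ∑ X ∈ powersetCard r (univ : Finset (Fin n)), ∑ c : Fin n → (Σ j : Fin m, Fin (N j)),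
          (if IsEdge (r - r / 2) A c X then 1 else 0)
        ≤ ∑ X ∈ powersetCard r (univ : Finset (Fin n)), G * W ^ (n - r) := by
          refine Finset.sum_le_sum fun X hX => ?_
          rw [← Finset.card_filter]
          exact card_edge_le (r - r / 2) r A hA1 X (mem_powersetCard.mp hX).2
      _ = n.choose r * (G * W ^ (n - r)) := by
          rw [Finset.sum_const, card_powersetCard, card_univ, Fintype.card_fin, smul_eq_mul]
  have hex : ∃ c, (Fc c).card * W ^ r ≤ n.choose r * G := by
    by_contra hcon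
    push Not at hcon
    have hne : (univ : Finset (Fin n → (Σ j : Fin m, Fin (N j)))).Nonempty := by
      rw [← card_pos, card_univ, Fintype.card_fun, Fintype.card_fin]
      exact pow_pos hWpos _
    have h1 : ∑ c : Fin n → (Σ j : Fin m, Fin (N j)), n.choose r * G
        < ∑ c, (Fc c).card * W ^ r :=
      Finset.sum_lt_sum_of_nonempty hne (fun c _ => hcon c)
    rw [Finset.sum_const, card_univ, Fintype.card_fun, Fintype.card_fin, smul_eq_mul,
      ← Finset.sum_mul, ← hW] at h1
    have h2 : (∑ c, (Fc c).card) * W ^ r ≤ n.choose r * (G * W ^ (n - r)) * W ^ r :=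
      Nat.mul_le_mul_right _ hsum
    have h3 : W ^ (n - r) * W ^ r = W ^ n := by rw [← pow_add]; congr 1; omega
    have h4 : n.choose r * (G * W ^ (n - r)) * W ^ r = W ^ n * (n.choose r * G) := by
      rw [← h3]; ring
    omega
  obtain ⟨c, hc⟩ := hex
  refine ⟨Fc c, ?_, ?_, ?_⟩
  · intro X hX
    exact (mem_powersetCard.mp (mem_filter.mp hX).1).2
  · intro Y hY
    obtain ⟨X, hXY, hX, hE⟩ := block_lemma r a ha hN hr A hA1 hA c Y (by omega)
    refine ⟨X, ?_, hXY⟩
    rw [hFc, mem_filter, mem_powersetCard]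
    exact ⟨⟨subset_univ _, hX⟩, hE⟩
  · rw [← hWs]; exact hc

end Pool.Agent.H15T
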