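import Mathlib

/-!
# A small family of `r`-sets meeting every `s`-set (greedy choice)
-/

open Finset

namespace Pool.Agent.H15T

variable {V : Type*} [Fintype V] [DecidableEq V]

/-- the `s`-sets containing no member of `A` -/
def unhit (s : ℕ) (A : Finset (Finset V)) : Finset (Finset V) :=
  (powersetCard s univ).filter (fun S => ∀ X ∈ A, ¬ X ⊆ S)

/-- counting pairs `(X, S)` with `X ⊆ S` -/
theorem sum_contain (r s : ℕ) (U : Finset (Finset V)) (hU : ∀ S ∈ U, S.card = s) :
    ∑ X ∈ powersetCard r (univ : Finset V), (U.filter (fun S => X ⊆ S)).card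
      = U.card * s.choose r := by
  simp_rw [Finset.card_filter]
  rw [Finset.sum_comm]
  have : ∀ S ∈ U, ∑ X ∈ powersetCard r (univ : Finset V), (if X ⊆ S then 1 else 0)
      = s.choose r := by
    intro S hS
    rw [← Finset.card_filter]
    have h1 : (powersetCard r (univ : Finset V)).filter (fun X => X ⊆ S) = powersetCard r S := by
      ext X
      simp only [mem_filter, mem_powersetCard, subset_univ, true_and]
      tauto
    rw [h1, card_powersetCard, hU S hS]
  rw [Finset.sum_congr rfl this, Finset.sum_const, smul_eq_mul]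

theorem exists_good (r s : ℕ) (hr : r ≤ Fintype.card V) (U : Finset (Finset V))
    (hU : ∀ S ∈ U, S.card = s) :
    ∃ X : Finset V, X.card = r ∧
      (U.card : ℝ) * ((s.choose r : ℝ) / ((Fintype.card V).choose r : ℝ))
        ≤ ((U.filter (fun S => X ⊆ S)).card : ℝ) := by
  by_contra hcon
  push Not at hcon
  have hpos : (0 : ℝ) < ((Fintype.card V).choose r : ℝ) := by
    exact_mod_cast Nat.choose_pos hr
  have h1 := sum_contain r s U hU
  have hne : (powersetCard r (univ : Finset V)).Nonempty := by
    rw [← Finset.card_pos, card_powersetCard, card_univ]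
    exact Nat.choose_pos hr
  have h2 : ∑ X ∈ powersetCard r (univ : Finset V), ((U.filter (fun S => X ⊆ S)).card : ℝ)
      < ∑ X ∈ powersetCard r (univ : Finset V),
        (U.card : ℝ) * ((s.choose r : ℝ) / ((Fintype.card V).choose r : ℝ)) := by
    apply Finset.sum_lt_sum_of_nonempty hne
    intro X hX
    exact hcon X (mem_powersetCard.mp hX).2
  rw [Finset.sum_const, card_powersetCard, card_univ, nsmul_eq_mul] at h2
  have h3 : ∑ X ∈ powersetCard r (univ : Finset V), ((U.filter (fun S => X ⊆ S)).card : ℝ)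
      = (U.card : ℝ) * (s.choose r : ℝ) := by
    exact_mod_cast h1
  rw [h3] at h2
  have h4 : ((Fintype.card V).choose r : ℝ) *
      ((U.card : ℝ) * ((s.choose r : ℝ) / ((Fintype.card V).choose r : ℝ)))
      = (U.card : ℝ) * (s.choose r : ℝ) := by
    field_simp
  rw [h4] at h2
  exact lt_irrefl _ h2

theorem greedy_step (r s : ℕ) (hr : r ≤ Fintype.card V) (hs : s.choose r ≤ (Fintype.card V).choose r)
    (t : ℕ) :
    ∃ A : Finset (Finset V), (∀ X ∈ A, X.card = r) ∧ A.card ≤ t ∧
      ((unhit s A).card : ℝ) ≤ ((Fintype.card V).choose s : ℝ) *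
        (1 - (s.choose r : ℝ) / ((Fintype.card V).choose r : ℝ)) ^ t := by
  have hpos : (0 : ℝ) < ((Fintype.card V).choose r : ℝ) := by
    exact_mod_cast Nat.choose_pos hr
  have hρ : (0 : ℝ) ≤ 1 - (s.choose r : ℝ) / ((Fintype.card V).choose r : ℝ) := by
    rw [sub_nonneg, div_le_one hpos]
    exact_mod_cast hs
  induction t with
  | zero =>
    refine ⟨∅, by simp, by simp, ?_⟩
    rw [pow_zero, mul_one]
    have : (unhit s (∅ : Finset (Finset V))).card ≤ (Fintype.card V).choose s := by
      refine (Finset.card_filter_le _ _).trans ?_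
      rw [card_powersetCard, card_univ]
    exact_mod_cast this
  | succ t ih =>
    obtain ⟨A, h1, h2, h3⟩ := ih
    obtain ⟨X, hX, hX2⟩ := exists_good r s hr (unhit s A) (fun S hS => by
      unfold unhit at hS
      rw [mem_filter, mem_powersetCard] at hS
      exact hS.1.2)
    refine ⟨insert X A, ?_, ?_, ?_⟩
    · intro Y hY
      rcases mem_insert.mp hY with rfl | h
      · exact hX
      · exact h1 Y h
    · exact (card_insert_le _ _).trans (by omega)
    · have e : (unhit s (insert X A)) = (unhit s A).filter (fun S => ¬ X ⊆ S) := by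
        ext S
        unfold unhit
        simp only [mem_filter, mem_insert, forall_eq_or_imp]
        tauto
      have e2 := Finset.card_filter_add_card_filter_not (s := unhit s A) (fun S => X ⊆ S)
      rw [← e] at e2
      have e3 : ((unhit s (insert X A)).card : ℝ)
          = ((unhit s A).card : ℝ) - (((unhit s A).filter (fun S => X ⊆ S)).card : ℝ) := by
        rw [← e2]; push_cast; ring
      rw [e3, pow_succ]
      calc ((unhit s A).card : ℝ) - (((unhit s A).filter (fun S => X ⊆ S)).card : ℝ)
          ≤ ((unhit s A).card : ℝ) - ((unhit s A).card : ℝ) *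
            ((s.choose r : ℝ) / ((Fintype.card V).choose r : ℝ)) := by linarith
        _ = ((unhit s A).card : ℝ) *
            (1 - (s.choose r : ℝ) / ((Fintype.card V).choose r : ℝ)) := by ring
        _ ≤ (((Fintype.card V).choose s : ℝ) *
            (1 - (s.choose r : ℝ) / ((Fintype.card V).choose r : ℝ)) ^ t) *
            (1 - (s.choose r : ℝ) / ((Fintype.card V).choose r : ℝ)) :=
            mul_le_mul_of_nonneg_right h3 hρ
        _ = _ := by ring

/-- **Greedy cover.** -/
theorem greedy_cover (r s : ℕ) (hrs : r ≤ s) (hs : s ≤ Fintype.card V) :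
    ∃ A : Finset (Finset V), (∀ X ∈ A, X.card = r) ∧
      (∀ S : Finset V, S.card = s → ∃ X ∈ A, X ⊆ S) ∧
      (A.card : ℝ) ≤ ((Fintype.card V).choose r : ℝ) / (s.choose r : ℝ) *
        Real.log ((Fintype.card V).choose s : ℝ) + 1 := by
  set N := Fintype.card V with hN
  have hpos : (0 : ℝ) < (N.choose r : ℝ) := by
    exact_mod_cast Nat.choose_pos (hrs.trans hs)
  have hpos2 : (0 : ℝ) < (s.choose r : ℝ) := by
    exact_mod_cast Nat.choose_pos hrs
  have hpos3 : (1 : ℝ) ≤ (N.choose s : ℝ) := by
    exact_mod_cast Nat.choose_pos hs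
  have hle : s.choose r ≤ N.choose r := Nat.choose_le_choose r hs
  set x : ℝ := (N.choose r : ℝ) / (s.choose r : ℝ) * Real.log (N.choose s : ℝ) with hx
  have hx0 : 0 ≤ x := by
    rw [hx]
    have := Real.log_nonneg hpos3
    positivity
  obtain ⟨A, h1, h2, h3⟩ := greedy_step (V := V) r s (hrs.trans hs) hle (⌊x⌋₊ + 1)
  refine ⟨A, h1, ?_, ?_⟩
  · have hlt : ((unhit s A).card : ℝ) < 1 := by
      refine lt_of_le_of_lt h3 ?_
      set ρ : ℝ := (s.choose r : ℝ) / (N.choose r : ℝ) with hρ
      have hρpos : 0 < ρ := by rw [hρ]; positivity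
      have hρ1 : ρ ≤ 1 := by
        rw [hρ, div_le_one hpos]
        exact_mod_cast hle
      have k1 : (1 - ρ) ^ (⌊x⌋₊ + 1) ≤ Real.exp (-(ρ * ((⌊x⌋₊ + 1 : ℕ) : ℝ))) := by
        have := Real.one_sub_le_exp_neg ρ
        calc (1 - ρ) ^ (⌊x⌋₊ + 1) ≤ (Real.exp (-ρ)) ^ (⌊x⌋₊ + 1) :=
              pow_le_pow_left₀ (by linarith) this _
          _ = Real.exp (-(ρ * ((⌊x⌋₊ + 1 : ℕ) : ℝ))) := by
              rw [← Real.exp_nat_mul]; ring_nf
      have k2 : Real.log (N.choose s : ℝ) < ρ * ((⌊x⌋₊ + 1 : ℕ) : ℝ) := by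
        have : x < ((⌊x⌋₊ + 1 : ℕ) : ℝ) := by
          push_cast
          exact Nat.lt_floor_add_one x
        have h5 : ρ * x = Real.log (N.choose s : ℝ) := by
          rw [hx, hρ]; field_simp
        rw [← h5]
        exact mul_lt_mul_of_pos_left this hρpos
      calc (N.choose s : ℝ) * (1 - ρ) ^ (⌊x⌋₊ + 1)
          ≤ (N.choose s : ℝ) * Real.exp (-(ρ * ((⌊x⌋₊ + 1 : ℕ) : ℝ))) :=
            mul_le_mul_of_nonneg_left k1 (by linarith)
        _ < (N.choose s : ℝ) * Real.exp (-(Real.log (N.choose s : ℝ))) := by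
            apply mul_lt_mul_of_pos_left _ (by linarith)
            apply Real.exp_lt_exp.mpr
            linarith
        _ = 1 := by
            rw [Real.exp_neg, Real.exp_log (by linarith)]
            field_simp
    have h0 : (unhit s A).card = 0 := by
      have : (unhit s A).card < 1 := by exact_mod_cast hlt
      omega
    rw [Finset.card_eq_zero] at h0
    intro S hS
    by_contra hcon
    push Not at hcon
    have : S ∈ unhit s A := by
      unfold unhit
      rw [mem_filter, mem_powersetCard]
      exact ⟨⟨subset_univ _, hS⟩, hcon⟩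
    rw [h0] at this
    simp at this
  · have : (A.card : ℝ) ≤ ((⌊x⌋₊ + 1 : ℕ) : ℝ) := by exact_mod_cast h2
    refine this.trans ?_
    push_cast
    have := Nat.floor_le hx0
    linarith

end Pool.Agent.H15T
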