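import Mathlib
import Pool.Agent.H15T.Greedy
import Pool.Agent.H15T.Count

/-!
# The numerical estimates and the covering theorem
-/

open Finset

namespace Pool.Agent.H15T

theorem pow_self_le (n : ℕ) : (n : ℝ) ^ n ≤ 3 ^ n * (n.factorial : ℝ) := by
  have h1 := Real.pow_div_factorial_le_exp (n : ℝ) (Nat.cast_nonneg n) n
  have hf : (0 : ℝ) < (n.factorial : ℝ) := by exact_mod_cast n.factorial_pos
  rw [div_le_iff₀ hf] at h1
  refine h1.trans ?_
  apply mul_le_mul_of_nonneg_right _ hf.le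
  have : Real.exp (n : ℝ) = (Real.exp 1) ^ n := by rw [← Real.exp_nat_mul]; simp
  rw [this]
  exact pow_le_pow_left₀ (Real.exp_pos 1).le Real.exp_one_lt_three.le n

/-- splitting `α` into parts of size in `[B, 2B)` -/
theorem exists_split (B : ℕ) (hB : 1 ≤ B) (α : ℕ) (hα : B ≤ α) :
    ∃ m : ℕ, 0 < m ∧ ∃ a : Fin m → ℕ, (∀ j, B ≤ a j ∧ a j < 2 * B) ∧ ∑ j, a j = α := by
  induction α using Nat.strong_induction_on with
  | _ α ih =>
    by_cases h : α < 2 * B
    · exact ⟨1, by norm_num, fun _ => α, fun _ => ⟨hα, h⟩, by simp⟩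
    · push Not at h
      obtain ⟨m, hm, a, ha, hs⟩ := ih (α - B) (by omega) (by omega)
      refine ⟨m + 1, by omega, Fin.cons B a, ?_, ?_⟩
      · intro j
        refine Fin.cases ?_ ?_ j
        · simp; omega
        · intro i
          simp only [Fin.cons_succ]
          exact ha i
      · rw [Fin.sum_univ_succ]
        simp only [Fin.cons_zero, Fin.cons_succ]
        rw [hs]; omega

/-- first numerical estimate -/
theorem numeric1 (L r : ℕ) (hL : 1 ≤ L) (hr : 2 ≤ r) :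
    (2 * ((L : ℝ) * (r : ℝ) ^ 2)) ^ (r - r / 2 - 1) * ((r - r / 2 : ℕ) : ℝ) ^ r
      ≤ 6 * (r.factorial : ℝ) * ((r - r / 2).factorial : ℝ) * (27 * L * r) ^ (r / 2) := by
  have hLr : (1 : ℝ) ≤ (L : ℝ) := by exact_mod_cast hL
  have hfac : (1 : ℝ) ≤ (r.factorial : ℝ) := by exact_mod_cast r.factorial_pos
  rcases Nat.even_or_odd' r with ⟨h, rfl | rfl⟩
  · -- even
    have e1 : 2 * h / 2 = h := by omega
    have e2 : 2 * h - 2 * h / 2 = h := by omega
    rw [e2, e1]
    have hh : 1 ≤ h := by omega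
    have hhr : (1 : ℝ) ≤ (h : ℝ) := by exact_mod_cast hh
    set R : ℝ := ((2 * h : ℕ) : ℝ) with hR
    have hRh : R = 2 * (h : ℝ) := by rw [hR]; push_cast; ring
    have hR2 : (2 : ℝ) ≤ R := by rw [hRh]; linarith
    have hf2 : (1 : ℝ) ≤ (h.factorial : ℝ) := by exact_mod_cast h.factorial_pos
    have k1 : (2 * ((L : ℝ) * R ^ 2)) ^ (h - 1) ≤ (2 * ((L : ℝ) * R ^ 2)) ^ h := by
      apply pow_le_pow_right₀ _ (by omega)
      nlinarith
    have k2 : (2 * ((L : ℝ) * R ^ 2)) ^ h * (h : ℝ) ^ (2 * h)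
        = ((L : ℝ) * R) ^ h * (R ^ (2 * h) * (h : ℝ) ^ h) := by
      have : (h : ℝ) ^ (2 * h) = (h : ℝ) ^ h * (h : ℝ) ^ h := by rw [← pow_add]; congr 1; ring
      have e3 : R ^ (2 * h) = (R ^ 2) ^ h := by rw [← pow_mul]
      have e4 : (2 * ((L : ℝ) * R ^ 2)) ^ h * (h : ℝ) ^ h = ((L : ℝ) * R) ^ h * (R ^ 2) ^ h := by
        rw [← mul_pow, ← mul_pow]
        congr 1
        rw [hRh]; ring
      rw [this, e3, ← mul_assoc, e4, mul_assoc]
    have k3 : R ^ (2 * h) ≤ 3 ^ (2 * h) * ((2 * h).factorial : ℝ) := pow_self_le (2 * h)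
    have k4 : (h : ℝ) ^ h ≤ 3 ^ h * (h.factorial : ℝ) := pow_self_le h
    calc (2 * ((L : ℝ) * R ^ 2)) ^ (h - 1) * (h : ℝ) ^ (2 * h)
        ≤ (2 * ((L : ℝ) * R ^ 2)) ^ h * (h : ℝ) ^ (2 * h) :=
          mul_le_mul_of_nonneg_right k1 (by positivity)
      _ = ((L : ℝ) * R) ^ h * (R ^ (2 * h) * (h : ℝ) ^ h) := k2
      _ ≤ ((L : ℝ) * R) ^ h * ((3 ^ (2 * h) * ((2 * h).factorial : ℝ)) *
            (3 ^ h * (h.factorial : ℝ))) := by
          apply mul_le_mul_of_nonneg_left _ (by positivity)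
          exact mul_le_mul k3 k4 (by positivity) (by positivity)
      _ = 1 * (((2 * h).factorial : ℝ) * (h.factorial : ℝ) * (27 * L * R) ^ h) := by
          have : (27 * (L : ℝ) * R) ^ h = (3 ^ (2 * h) * 3 ^ h) * ((L : ℝ) * R) ^ h := by
            rw [← pow_add, show 2 * h + h = 3 * h by ring, pow_mul, ← mul_pow]
            congr 1; norm_num; ring
          rw [this]; ring
      _ ≤ 6 * (((2 * h).factorial : ℝ) * (h.factorial : ℝ) * (27 * L * R) ^ h) := by
          apply mul_le_mul_of_nonneg_right (by norm_num) (by positivity)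
      _ = _ := by ring
  · -- odd
    have e1 : (2 * h + 1) / 2 = h := by omega
    have e2 : 2 * h + 1 - (2 * h + 1) / 2 = h + 1 := by omega
    rw [e2, e1]
    have hh : 1 ≤ h := by omega
    have hhr : (1 : ℝ) ≤ (h : ℝ) := by exact_mod_cast hh
    set R : ℝ := ((2 * h + 1 : ℕ) : ℝ) with hR
    have hRh : R = 2 * (h : ℝ) + 1 := by rw [hR]; push_cast; ring
    have hR3 : (3 : ℝ) ≤ R := by rw [hRh]; linarith
    have eh : h + 1 - 1 = h := by omega
    rw [eh]
    have k1 : (2 * ((L : ℝ) * R ^ 2)) ^ h * ((h + 1 : ℕ) : ℝ) ^ (2 * h + 1)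
        = ((L : ℝ) * R) ^ h * (R ^ h * (R + 1) ^ h * ((h + 1 : ℕ) : ℝ) ^ (h + 1)) := by
      have : ((h + 1 : ℕ) : ℝ) ^ (2 * h + 1)
          = ((h + 1 : ℕ) : ℝ) ^ h * ((h + 1 : ℕ) : ℝ) ^ (h + 1) := by
        rw [← pow_add]; congr 1; ring
      have e4 : (2 * ((L : ℝ) * R ^ 2)) ^ h * ((h + 1 : ℕ) : ℝ) ^ h
          = ((L : ℝ) * R) ^ h * (R ^ h * (R + 1) ^ h) := by
        rw [← mul_pow, ← mul_pow, ← mul_pow]
        congr 1
        rw [hRh]; push_cast; ring
      rw [this, ← mul_assoc, e4, mul_assoc]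
    have k2 : (R + 1) ^ h ≤ 2 * R ^ h := by
      have hb : 1 + (h : ℝ) * (-(1 / (R + 1))) ≤ (1 + (-(1 / (R + 1)))) ^ h := by
        apply one_add_mul_le_pow
        have : 1 / (R + 1) ≤ 1 := by
          rw [div_le_one (by linarith)]; linarith
        linarith
      have e3 : 1 + (-(1 / (R + 1))) = R / (R + 1) := by field_simp; ring
      rw [e3, div_pow] at hb
      have h4 : (1 : ℝ) / 2 ≤ 1 + (h : ℝ) * (-(1 / (R + 1))) := by
        have : (h : ℝ) * (1 / (R + 1)) ≤ 1 / 2 := by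
          rw [mul_one_div, div_le_div_iff₀ (by linarith) (by norm_num)]
          linarith
        linarith
      have h5 := h4.trans hb
      rw [div_le_div_iff₀ (by norm_num) (by positivity)] at h5
      linarith
    have k3 : R ^ (2 * h) ≤ 3 ^ (2 * h) * ((2 * h + 1).factorial : ℝ) := by
      have := pow_self_le (2 * h + 1)
      rw [← hR] at this
      rw [pow_succ, pow_succ] at this
      have h6 : R ^ (2 * h) * 3 ≤ R ^ (2 * h) * R := by
        apply mul_le_mul_of_nonneg_left hR3 (by positivity)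
      nlinarith
    have k4 := pow_self_le (h + 1)
    calc (2 * ((L : ℝ) * R ^ 2)) ^ h * ((h + 1 : ℕ) : ℝ) ^ (2 * h + 1)
        = ((L : ℝ) * R) ^ h * (R ^ h * (R + 1) ^ h * ((h + 1 : ℕ) : ℝ) ^ (h + 1)) := k1
      _ ≤ ((L : ℝ) * R) ^ h * (R ^ h * (2 * R ^ h) * (3 ^ (h + 1) * ((h + 1).factorial : ℝ))) := by
          apply mul_le_mul_of_nonneg_left _ (by positivity)
          apply mul_le_mul _ k4 (by positivity) (by positivity)
          exact mul_le_mul_of_nonneg_left k2 (by positivity)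
      _ = ((L : ℝ) * R) ^ h * (2 * R ^ (2 * h) * (3 ^ (h + 1) * ((h + 1).factorial : ℝ))) := by
          have : R ^ (2 * h) = R ^ h * R ^ h := by rw [← pow_add]; congr 1; ring
          rw [this]; ring
      _ ≤ ((L : ℝ) * R) ^ h * (2 * (3 ^ (2 * h) * ((2 * h + 1).factorial : ℝ)) *
            (3 ^ (h + 1) * ((h + 1).factorial : ℝ))) := by
          apply mul_le_mul_of_nonneg_left _ (by positivity)
          apply mul_le_mul_of_nonneg_right _ (by positivity)
          linarith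
      _ = 6 * ((2 * h + 1).factorial : ℝ) * ((h + 1).factorial : ℝ) * (27 * L * R) ^ h := by
          have : (27 * (L : ℝ) * R) ^ h = (3 ^ (2 * h) * 3 ^ h) * ((L : ℝ) * R) ^ h := by
            rw [← pow_add, show 2 * h + h = 3 * h by ring, pow_mul, ← mul_pow]
            congr 1; norm_num; ring
          rw [this, pow_succ]; ring

/-- term 1: degenerate `r`-sets -/
theorem term1 (L r a : ℕ) (hL : 1 ≤ L) (hr : 2 ≤ r) (ha : a < 2 * (L * r ^ 2)) :
    (((27 * L * r * a).choose (r - r / 2) : ℕ) : ℝ) * ((r - r / 2 : ℕ) : ℝ) ^ r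
      ≤ 6 * (r.factorial : ℝ) * ((27 * L * r : ℕ) : ℝ) ^ r * a := by
  set q := r - r / 2 with hq
  have hq1 : 1 ≤ q := by omega
  have hqr : q + r / 2 = r := by omega
  set K : ℝ := ((27 * L * r : ℕ) : ℝ) with hK
  have hKe : K = 27 * L * r := by rw [hK]; push_cast; ring
  have hfq : (0 : ℝ) < (q.factorial : ℝ) := by exact_mod_cast q.factorial_pos
  have h1 : (((27 * L * r * a).choose q : ℕ) : ℝ) ≤ (K * a) ^ q / (q.factorial : ℝ) := by
    have := Nat.choose_le_pow_div (α := ℝ) q (27 * L * r * a)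
    rw [hK]; push_cast at this ⊢; exact this
  have h2 : ((a : ℝ)) ^ q ≤ (2 * ((L : ℝ) * (r : ℝ) ^ 2)) ^ (q - 1) * a := by
    have : ((a : ℝ)) ^ q = (a : ℝ) ^ (q - 1) * a := by rw [← pow_succ]; congr 1; omega
    rw [this]
    apply mul_le_mul_of_nonneg_right _ (Nat.cast_nonneg a)
    apply pow_le_pow_left₀ (Nat.cast_nonneg a)
    have : (a : ℝ) < ((2 * (L * r ^ 2) : ℕ) : ℝ) := by exact_mod_cast ha
    push_cast at this
    exact this.le
  have h3 := numeric1 L r hL hr
  rw [← hq] at h3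
  calc (((27 * L * r * a).choose q : ℕ) : ℝ) * (q : ℝ) ^ r
      ≤ (K * a) ^ q / (q.factorial : ℝ) * (q : ℝ) ^ r :=
        mul_le_mul_of_nonneg_right h1 (by positivity)
    _ = K ^ q / (q.factorial : ℝ) * ((a : ℝ) ^ q * (q : ℝ) ^ r) := by
        rw [mul_pow]; ring
    _ ≤ K ^ q / (q.factorial : ℝ) *
        (((2 * ((L : ℝ) * (r : ℝ) ^ 2)) ^ (q - 1) * a) * (q : ℝ) ^ r) := by
        apply mul_le_mul_of_nonneg_left _ (by positivity)
        exact mul_le_mul_of_nonneg_right h2 (by positivity)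
    _ = K ^ q / (q.factorial : ℝ) * a *
        (((2 * ((L : ℝ) * (r : ℝ) ^ 2)) ^ (q - 1)) * (q : ℝ) ^ r) := by ring
    _ ≤ K ^ q / (q.factorial : ℝ) * a *
        (6 * (r.factorial : ℝ) * (q.factorial : ℝ) * (27 * L * r) ^ (r / 2)) := by
        apply mul_le_mul_of_nonneg_left h3 (by positivity)
    _ = 6 * (r.factorial : ℝ) * K ^ r * a := by
        rw [← hKe]
        have : K ^ r = K ^ q * K ^ (r / 2) := by rw [← pow_add, hqr]
        rw [this]
        field_simp

/-- term 2: the greedy family -/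
theorem term2 (L r a : ℕ) (hL : 1 ≤ L) (hr : 2 ≤ r) (ha : L * r ^ 2 ≤ a) :
    ((27 * L * r * a).choose r : ℝ) / ((a + 2 - r).choose r : ℝ) *
        Real.log ((27 * L * r * a).choose (a + 2 - r) : ℝ)
      ≤ ((27 * L * r : ℕ) : ℝ) ^ r * a *
        (Real.exp (3 / L) * (Real.log (L * r) + 5)) := by
  have hLr : (1 : ℝ) ≤ (L : ℝ) := by exact_mod_cast hL
  have hrr : (2 : ℝ) ≤ (r : ℝ) := by exact_mod_cast hr
  have har : (L : ℝ) * (r : ℝ) ^ 2 ≤ (a : ℝ) := by exact_mod_cast ha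
  have hr2a : r ^ 2 ≤ a := le_trans (by nlinarith) ha
  have h2ra : 2 * r ≤ a := le_trans (by nlinarith) hr2a
  have har2 : 2 * (r : ℝ) ≤ (a : ℝ) := by exact_mod_cast h2ra
  have hapos : (0 : ℝ) < (a : ℝ) := by linarith
  set κ : ℕ := 27 * L * r with hκ
  set K : ℝ := (κ : ℝ) with hK
  have hKe : K = 27 * (L * r) := by rw [hK, hκ]; push_cast; ring
  have hLr1 : (1 : ℝ) ≤ (L : ℝ) * r := by nlinarith
  have hK1 : (1 : ℝ) ≤ K := by rw [hKe]; linarith
  have hκ1 : 1 ≤ κ := by rw [hκ]; nlinarith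
  set s := a + 2 - r with hs
  have hsa : s ≤ a := by omega
  have haκ : a ≤ κ * a := by nlinarith
  -- the ratio of binomial coefficients
  set b : ℝ := (a : ℝ) + 3 - 2 * r with hb
  have hbs : ((s + 1 - r : ℕ) : ℝ) = b := by
    rw [hs, hb]
    have : a + 2 - r + 1 - r = a + 3 - 2 * r := by omega
    rw [this, Nat.cast_sub (by omega)]
    push_cast; ring
  have hbpos : 0 < b := by rw [hb]; linarith
  have hf : (0 : ℝ) < (r.factorial : ℝ) := by exact_mod_cast r.factorial_pos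
  have c1 : ((κ * a).choose r : ℝ) ≤ (K * a) ^ r / (r.factorial : ℝ) := by
    have := Nat.choose_le_pow_div (α := ℝ) r (κ * a)
    push_cast at this ⊢; exact this
  have c2 : b ^ r / (r.factorial : ℝ) ≤ (s.choose r : ℝ) := by
    have := Nat.pow_le_choose (α := ℝ) r s
    rw [hbs] at this
    exact this
  have c2pos : 0 < b ^ r / (r.factorial : ℝ) := by positivity
  have c3 : ((κ * a).choose r : ℝ) / (s.choose r : ℝ) ≤ K ^ r * ((a : ℝ) / b) ^ r := by
    calc ((κ * a).choose r : ℝ) / (s.choose r : ℝ)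
        ≤ ((K * a) ^ r / (r.factorial : ℝ)) / (b ^ r / (r.factorial : ℝ)) := by
          apply div_le_div₀ (by positivity) c1 c2pos c2
      _ = K ^ r * ((a : ℝ) / b) ^ r := by
          rw [mul_pow, div_pow]
          field_simp
  have c4 : ((a : ℝ) / b) ^ r ≤ Real.exp (3 / L) := by
    have d1 : (a : ℝ) / b ≤ Real.exp ((2 * r - 3) / b) := by
      have : (a : ℝ) / b = (2 * r - 3) / b + 1 := by
        rw [div_add_one hbpos.ne']
        congr 1
        rw [hb]; ring
      rw [this]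
      exact Real.add_one_le_exp _
    calc ((a : ℝ) / b) ^ r ≤ (Real.exp ((2 * r - 3) / b)) ^ r :=
          pow_le_pow_left₀ (by positivity) d1 r
      _ = Real.exp (r * ((2 * r - 3) / b)) := by rw [← Real.exp_nat_mul]
      _ ≤ Real.exp (3 / L) := by
          apply Real.exp_le_exp.mpr
          rw [← mul_div_assoc, div_le_div_iff₀ hbpos (by linarith)]
          rw [hb]
          nlinarith [mul_nonneg (sub_nonneg.mpr hLr) (by positivity : (0 : ℝ) ≤ (r : ℝ) ^ 2 + 3 * r),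
            sq_nonneg ((r : ℝ) - 3 / 2)]
  -- the logarithm
  have l1 : ((κ * a).choose s : ℝ) ≤ K ^ a * Real.exp a := by
    have e1 := Nat.choose_le_pow_div (α := ℝ) s (κ * a)
    have e2 := Real.pow_div_factorial_le_exp (a : ℝ) (Nat.cast_nonneg a) s
    calc ((κ * a).choose s : ℝ) ≤ ((κ * a : ℕ) : ℝ) ^ s / (s.factorial : ℝ) := by exact_mod_cast e1
      _ = K ^ s * ((a : ℝ) ^ s / (s.factorial : ℝ)) := by
          push_cast; rw [mul_pow]; ring
      _ ≤ K ^ a * Real.exp a := by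
          apply mul_le_mul (pow_le_pow_right₀ hK1 hsa) e2 (by positivity) (by positivity)
  have hcpos : (1 : ℝ) ≤ ((κ * a).choose s : ℝ) := by
    exact_mod_cast Nat.choose_pos (hsa.trans haκ)
  have l2 : Real.log ((κ * a).choose s : ℝ) ≤ a * (Real.log (L * r) + 5) := by
    have e1 : Real.log ((κ * a).choose s : ℝ) ≤ Real.log (K ^ a * Real.exp a) :=
      Real.log_le_log (by linarith) l1
    rw [Real.log_mul (by positivity) (by positivity), Real.log_exp, Real.log_pow, hKe,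
      Real.log_mul (by norm_num) (by positivity)] at e1
    have e2 : Real.log 27 ≤ 4 := by
      rw [Real.log_le_iff_le_exp (by norm_num)]
      have e3 : Real.exp 4 = (Real.exp 1) ^ 4 := by rw [← Real.exp_nat_mul]; norm_num
      rw [e3]
      have e4 : (2.7 : ℝ) ≤ Real.exp 1 := by
        have := Real.exp_one_gt_d9
        linarith
      calc (27 : ℝ) ≤ 2.7 ^ 4 := by norm_num
        _ ≤ (Real.exp 1) ^ 4 := pow_le_pow_left₀ (by norm_num) e4 4
    nlinarith
  have hlog0 : 0 ≤ Real.log ((κ * a).choose s : ℝ) := Real.log_nonneg hcpos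
  calc ((κ * a).choose r : ℝ) / (s.choose r : ℝ) * Real.log ((κ * a).choose s : ℝ)
      ≤ (K ^ r * ((a : ℝ) / b) ^ r) * Real.log ((κ * a).choose s : ℝ) :=
        mul_le_mul_of_nonneg_right c3 hlog0
    _ ≤ (K ^ r * Real.exp (3 / L)) * Real.log ((κ * a).choose s : ℝ) := by
        apply mul_le_mul_of_nonneg_right _ hlog0
        exact mul_le_mul_of_nonneg_left c4 (by positivity)
    _ ≤ (K ^ r * Real.exp (3 / L)) * (a * (Real.log (L * r) + 5)) :=
        mul_le_mul_of_nonneg_left l2 (by positivity)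
    _ = K ^ r * a * (Real.exp (3 / L) * (Real.log (L * r) + 5)) := by ring

/-- The constant in the bound. -/
noncomputable def bound (L r : ℕ) : ℝ := Real.exp (3 / L) * (Real.log (L * r) + 5) + 7

/-- **Covering theorem.** -/
theorem cover (L r α : ℕ) (hL : 1 ≤ L) (hr : 2 ≤ r) (hα : L * r ^ 2 ≤ α) (n : ℕ) (hn : r ≤ n) :
    ∃ F : Finset (Finset (Fin n)), (∀ X ∈ F, X.card = r) ∧
      (∀ Y : Finset (Fin n), Y.card = α + 1 → ∃ X ∈ F, X ⊆ Y) ∧
      (F.card : ℝ) ≤ (n.choose r : ℝ) * ((r.factorial : ℝ) / (α : ℝ) ^ (r - 1) * bound L r) := by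
  have hr2 : 4 ≤ r ^ 2 := by nlinarith
  have hB1 : 1 ≤ L * r ^ 2 := by nlinarith
  obtain ⟨m, hm, a, ha, hsum⟩ := exists_split (L * r ^ 2) hB1 α hα
  set κ : ℕ := 27 * L * r with hκ
  have hκ1 : 1 ≤ κ := by rw [hκ]; nlinarith
  have hra : ∀ j, 2 * r ≤ a j := fun j => by
    have := (ha j).1
    have h1 : 2 * r ≤ r ^ 2 := by nlinarith
    have h2 : r ^ 2 ≤ L * r ^ 2 := by nlinarith
    omega
  have haN : ∀ j, a j ≤ κ * a j := fun j => by nlinarith
  have hgreedy : ∀ j : Fin m, ∃ A : Finset (Finset (Fin (κ * a j))), (∀ X ∈ A, X.card = r) ∧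
      (∀ S : Finset (Fin (κ * a j)), S.card = a j + 2 - r → ∃ X ∈ A, X ⊆ S) ∧
      (A.card : ℝ) ≤ ((κ * a j).choose r : ℝ) / ((a j + 2 - r).choose r : ℝ) *
        Real.log ((κ * a j).choose (a j + 2 - r) : ℝ) + 1 := by
    intro j
    have h1 := hra j
    have h2 := haN j
    have := greedy_cover (V := Fin (κ * a j)) r (a j + 2 - r) (by omega)
      (by rw [Fintype.card_fin]; omega)
    rwa [Fintype.card_fin] at this
  choose A hA1 hA2 hA3 using hgreedy
  obtain ⟨F, hF1, hF2, hF3⟩ := exists_cover (N := fun j => κ * a j) r hr a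
    (fun j => by have := hra j; omega) haN hm A hA1 hA2 n hn
  refine ⟨F, hF1, ?_, ?_⟩
  · intro Y hY
    exact hF2 Y (by rw [hsum]; exact hY)
  · -- the numerical bound
    have hsN : ∑ j, κ * a j = κ * α := by rw [← Finset.mul_sum, hsum]
    rw [hsN] at hF3
    have hapos : ∀ j, (1 : ℝ) ≤ (a j : ℝ) := fun j => by
      have := hra j
      have : 1 ≤ a j := by omega
      exact_mod_cast this
    have hαpos : (0 : ℝ) < (α : ℝ) := by
      have : 0 < α := by omega
      exact_mod_cast this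
    have hKpos : (1 : ℝ) ≤ (κ : ℝ) := by exact_mod_cast hκ1
    have hf1 : (0 : ℝ) < (r.factorial : ℝ) := by exact_mod_cast r.factorial_pos
    set E : ℝ := Real.exp (3 / L) * (Real.log (L * r) + 5) with hE
    have hterm : ∀ j, (((κ * a j).choose (r - r / 2) * (r - r / 2) ^ r
        + (A j).card * r.factorial : ℕ) : ℝ)
        ≤ (r.factorial : ℝ) * (κ : ℝ) ^ r * (E + 7) * (a j : ℝ) := by
      intro j
      push_cast
      have t1 := term1 L r (a j) hL hr (ha j).2
      have t2 := term2 L r (a j) hL hr (ha j).1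
      rw [← hκ] at t1 t2
      have t3 := hA3 j
      have t4 : ((A j).card : ℝ) ≤ (κ : ℝ) ^ r * (a j) * E + 1 := by linarith
      have t5 : (1 : ℝ) ≤ (κ : ℝ) ^ r * (a j : ℝ) := by
        have := one_le_pow₀ (n := r) hKpos
        nlinarith [hapos j]
      have t6 : ((A j).card : ℝ) * (r.factorial : ℝ)
          ≤ ((κ : ℝ) ^ r * (a j) * E + (κ : ℝ) ^ r * (a j : ℝ)) * (r.factorial : ℝ) :=
        mul_le_mul_of_nonneg_right (by linarith) hf1.le
      calc ((κ * a j).choose (r - r / 2) : ℝ) * ((r - r / 2 : ℕ) : ℝ) ^ r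
            + (A j).card * (r.factorial : ℝ)
          ≤ 6 * (r.factorial : ℝ) * (κ : ℝ) ^ r * a j +
            ((κ : ℝ) ^ r * (a j) * E + (κ : ℝ) ^ r * (a j : ℝ)) * (r.factorial : ℝ) :=
            add_le_add t1 t6
        _ = (r.factorial : ℝ) * (κ : ℝ) ^ r * (E + 7) * (a j : ℝ) := by ring
    have hG : ((∑ j, ((κ * a j).choose (r - r / 2) * (r - r / 2) ^ r
            + (A j).card * r.factorial) : ℕ) : ℝ)
        ≤ (r.factorial : ℝ) * (κ : ℝ) ^ r * (E + 7) * (α : ℝ) := by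
      rw [Nat.cast_sum]
      refine (Finset.sum_le_sum fun j _ => hterm j).trans ?_
      rw [← Finset.mul_sum]
      have : ∑ j, (a j : ℝ) = (α : ℝ) := by rw [← hsum]; push_cast; rfl
      rw [this]
    have hF4 : (F.card : ℝ) * ((κ : ℝ) * α) ^ r
        ≤ (n.choose r : ℝ) * ((r.factorial : ℝ) * (κ : ℝ) ^ r * (E + 7) * (α : ℝ)) := by
      have : (F.card : ℝ) * ((κ : ℝ) * α) ^ r
          ≤ (n.choose r : ℝ) * ((∑ j, ((κ * a j).choose (r - r / 2) * (r - r / 2) ^ r
            + (A j).card * r.factorial) : ℕ) : ℝ) := by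
        exact_mod_cast hF3
      exact this.trans (mul_le_mul_of_nonneg_left hG (by positivity))
    have hb : bound L r = E + 7 := rfl
    rw [hb]
    have hp : (0 : ℝ) < ((κ : ℝ) * α) ^ r := by positivity
    rw [← le_div_iff₀ hp] at hF4
    refine hF4.trans (le_of_eq ?_)
    have hαr : (α : ℝ) ^ r = (α : ℝ) ^ (r - 1) * α := by rw [← pow_succ]; congr 1; omega
    rw [mul_pow, hαr]
    field_simp

end Pool.Agent.H15T
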